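import Mathlib
import Pool.Agent.W7h60.QQ.Quad2

set_option autoImplicit false
set_option linter.unusedSectionVars false

/-! Consequences of the vanishing of the products of two `N`'s with disjoint supports, over an
arbitrary ring. -/

namespace Pool.Agent.W7h60.QR

open Pool.Agent.Helper156.OF Pool.Agent.TH271.CU Pool.Agent.W7h60.QQ

universe u

variable {α : Type} [DecidableEq α] [Fintype α] {A : Type u} [Ring A]

/-- products of two disjoint `N`'s vanish -/
structure DRel (ρ : MulAut (FreeGroup α) →* A) : Prop where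
  dj : ∀ x a y b : Lt α, x.1 ≠ a.1 → x.1 ≠ y.1 → x.1 ≠ b.1 → a.1 ≠ y.1 → a.1 ≠ b.1 →
    y.1 ≠ b.1 → N ρ x a * N ρ y b = 0

variable {ρ : MulAut (FreeGroup α) →* A}

theorem rinv_mul (g : MulAut (FreeGroup α)) : ρ g⁻¹ * ρ g = 1 := by
  rw [← map_mul, inv_mul_cancel, map_one]

theorem rmul_inv (g : MulAut (FreeGroup α)) : ρ g * ρ g⁻¹ = 1 := by
  rw [← map_mul, mul_inv_cancel, map_one]

theorem cancel_left (g : MulAut (FreeGroup α)) {z : A} (h : ρ g * z = 0) : z = 0 := by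
  calc z = ρ g⁻¹ * (ρ g * z) := by rw [← mul_assoc, rinv_mul, one_mul]
    _ = 0 := by rw [h, mul_zero]

/-- `N x (nv a)` in terms of `N x a` -/
theorem N_nv_eq (x a : Lt α) : N ρ x (nv a) = -(ρ (eAut x (nv a)) * N ρ x a) := by
  have e : ρ (eAut x (nv a)) * ρ (eAut x a) = 1 := by
    rw [rel_aut.e1]
    exact rinv_mul _
  unfold N
  rw [mul_sub, e, mul_one]
  abel

theorem N_of_nv {x a : Lt α} {z : A} (h : N ρ x (nv a) * z = 0) : N ρ x a * z = 0 := by
  rw [N_nv_eq, neg_mul, neg_eq_zero, mul_assoc] at h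
  exact cancel_left _ h

namespace DRel

variable (H : DRel ρ)

include H

theorem same (h4 : 4 ≤ Fintype.card α) {x y z : Lt α} (h1 : x.1 ≠ y.1) (h2 : x.1 ≠ z.1)
    (h3 : y.1 ≠ z.1) : N ρ x z * N ρ y z = 0 := by
  obtain ⟨i, hi⟩ := exists_out (s := ({x.1, y.1, z.1} : Finset α))
    (lt_of_le_of_lt Finset.card_le_three (by omega))
  simp only [Finset.mem_insert, Finset.mem_singleton, not_or] at hi
  obtain ⟨i1, i2, i3⟩ := hi
  obtain ⟨w, hw⟩ : ∃ x : Lt α, x.1 = i := ⟨(i, true), rfl⟩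
  rw [← hw] at i1 i2 i3
  have k1 : N ρ x w * N ρ y z = 0 := H.dj x w y z (Ne.symm i1) h1 h2 i2 i3 h3
  have k2 := pr_conj (ρ := ρ) (g := eAut x w) (g' := eAut y z) (h := eAut w z) k1
  have k3 : eAut w z * eAut y z * (eAut w z)⁻¹ = eAut y z := by
    rw [(rel_aut (α := α).comm_same z w y).eq]
    group
  rw [c1 rel_aut (Ne.symm i1) h2 i3, k3, map_mul, rho_eq x z] at k2
  have k4 : (ρ (eAut x w) * (1 + N ρ x z) - 1) * (ρ (eAut y z) - 1) =
      N ρ x w * N ρ y z + ρ (eAut x w) * (N ρ x z * N ρ y z) := by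
    unfold N
    noncomm_ring
  rw [k4, k1, zero_add] at k2
  exact cancel_left _ k2

theorem same' (h4 : 4 ≤ Fintype.card α) {x y z : Lt α} (h1 : x.1 ≠ y.1) (h2 : x.1 ≠ z.1)
    (h3 : y.1 ≠ z.1) : N ρ x z * N ρ y (nv z) = 0 := by
  apply N_of_nv
  exact H.same h4 h1 (show x.1 ≠ (nv z).1 from h2) (show y.1 ≠ (nv z).1 from h3)

theorem sq (h4 : 4 ≤ Fintype.card α) (x z : Lt α) (h : x.1 ≠ z.1) :
    N ρ x z * N ρ x z = 0 := by
  obtain ⟨i, hi⟩ := exists_out (s := ({x.1, z.1} : Finset α))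
    (lt_of_le_of_lt Finset.card_le_two (by omega))
  simp only [Finset.mem_insert, Finset.mem_singleton, not_or] at hi
  obtain ⟨i1, i2⟩ := hi
  obtain ⟨y, hy⟩ : ∃ x : Lt α, x.1 = i := ⟨(i, true), rfl⟩
  rw [← hy] at i1 i2
  have R := rel_aut (α := α)
  -- the product with the conjugate by `KK z (nv y)`
  have k0 : N ρ x z * N ρ (nv y) (nv z) = 0 :=
    H.same' h4 (show x.1 ≠ (nv y).1 from Ne.symm i1) h (show (nv y).1 ≠ z.1 from i2)
  have k1 := pr_conj (ρ := ρ) (g := eAut x z) (g' := eAut (nv y) (nv z))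
    (h := KK eAut z (nv y)) k0
  have e1 : KK eAut z (nv y) * eAut x z * (KK eAut z (nv y))⁻¹ =
      eAut x y * eAut x z * (eAut x y)⁻¹ := by
    rw [KK_E R h (show x.1 ≠ (nv y).1 from Ne.symm i1) (show z.1 ≠ (nv y).1 from Ne.symm i2),
      R.e1 x y]
    group
  have e2 : KK eAut z (nv y) * eAut (nv y) (nv z) * (KK eAut z (nv y))⁻¹ = eAut y z := by
    have h1 := R.rank2 y z i2
    have h2 : KK eAut z (nv y) = (KK eAut z y)⁻¹ := KK_nv' R z y
    have h3 : KK eAut z y * (eAut y z)⁻¹ = eAut (nv y) z * KK eAut z y := by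
      unfold KK
      exact h1
    rw [h2, R.e1 (nv y) z, inv_inv]
    have h4 : eAut (nv y) z = KK eAut z y * (eAut y z)⁻¹ * (KK eAut z y)⁻¹ := by
      rw [h3]; group
    rw [h4]
    group
  rw [e1, e2] at k1
  -- `a n a⁻¹ * N y z = 0`
  have k2 := c4 R (Ne.symm i1) h i2
  have k3 : ρ ((eAut x y)⁻¹ * eAut y z * eAut x y) = ρ (eAut x z * eAut y z) := by rw [k2]
  have s := H.same h4 (Ne.symm i1) h i2
  rw [map_mul, map_mul, map_mul] at k3
  set a := ρ (eAut x y) with ha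
  set a' := ρ (eAut x y)⁻¹ with ha'
  have a1 : a' * a = 1 := rinv_mul _
  have a2 : a * a' = 1 := rmul_inv _
  have k4 : ρ (eAut x y * eAut x z * (eAut x y)⁻¹) - 1 = a * N ρ x z * a' := by
    rw [map_mul, map_mul]
    unfold N
    rw [mul_sub, sub_mul, mul_one, a2]
  rw [k4] at k1
  have k1' : a * N ρ x z * a' * N ρ y z = 0 := k1
  -- multiply `k3` by `N x z` on the left
  have k5 : N ρ x z * (a' * ρ (eAut y z) * a) = N ρ x z * (ρ (eAut x z) * ρ (eAut y z)) := by
    rw [k3]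
  have l1 : N ρ x z * (a' * ρ (eAut y z) * a) = N ρ x z := by
    have : N ρ x z * a' * N ρ y z = 0 := by
      apply cancel_left (ρ := ρ) (eAut x y)
      rw [← ha]
      calc a * (N ρ x z * a' * N ρ y z) = a * N ρ x z * a' * N ρ y z := by
            simp only [mul_assoc]
        _ = 0 := k1'
    rw [rho_eq y z]
    calc N ρ x z * (a' * (1 + N ρ y z) * a) =
          N ρ x z * (a' * a) + N ρ x z * a' * N ρ y z * a := by noncomm_ring
      _ = N ρ x z := by rw [a1, this, zero_mul, add_zero, mul_one]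
  have l2 : N ρ x z * (ρ (eAut x z) * ρ (eAut y z)) = N ρ x z + N ρ x z * N ρ x z := by
    rw [rho_eq x z, rho_eq y z]
    calc N ρ x z * ((1 + N ρ x z) * (1 + N ρ y z)) =
          N ρ x z + N ρ x z * N ρ x z + (N ρ x z * N ρ y z + N ρ x z * (N ρ x z * N ρ y z)) := by
            noncomm_ring
      _ = _ := by rw [s, mul_zero, add_zero, add_zero]
  rw [l1, l2] at k5
  exact left_eq_add.1 k5

end DRel

end Pool.Agent.W7h60.QR
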