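import Mathlib
import Pool.Agent.W7h60.QR.Dis

set_option autoImplicit false
set_option linter.unusedSectionVars false

/-! The structure of a representation for which the products of two `N`'s with disjoint supports
vanish, over an arbitrary ring. -/

namespace Pool.Agent.W7h60.QR

open Pool.Agent.Helper156.OF Pool.Agent.TH271.CU Pool.Agent.W7h60.QQ

section ring

variable {A : Type*} [Ring A]

theorem anti_aux {a b : A} (ha : a * a = 0) (hb : b * b = 0)
    (h : (a + b + a * b) * (a + b + a * b) = 0) :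
    a * b = -(b * a) ∧ a * b * a = 0 ∧ b * a * b = 0 := by
  have e : (a + b + a * b) * (a + b + a * b) = a * a + a * b + (a * a) * b + b * a + b * b +
      (b * a) * b + (a * b) * a + a * (b * b) + (a * b) * (a * b) := by noncomm_ring
  rw [e, ha, hb] at h
  simp only [mul_zero, zero_mul, add_zero, zero_add] at h
  -- `h : a b + b a + b a b + a b a + a b a b = 0`
  have x1 : a * b * a + a * b * (a * b) = 0 := by
    have := congrArg (fun z => a * z) h
    simp only [mul_add, mul_zero] at this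
    have e1 : a * (a * b) = 0 := by rw [← mul_assoc, ha, zero_mul]
    have e2 : a * (b * a * b) = a * b * (a * b) := by simp only [mul_assoc]
    have e3 : a * (a * b * a) = 0 := by
      rw [mul_assoc a b a, ← mul_assoc a a, ha, zero_mul]
    have e4 : a * (a * b * (a * b)) = 0 := by
      rw [mul_assoc a b, ← mul_assoc a a, ha, zero_mul]
    rw [e1, e2, e3, e4, zero_add, add_zero, add_zero, ← mul_assoc a b a] at this
    exact this
  have x2 : a * b * (a * b) = 0 := by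
    have := congrArg (fun z => z * b) x1
    simp only [add_mul, zero_mul] at this
    have e1 : a * b * (a * b) * b = 0 := by
      rw [mul_assoc, mul_assoc a b b, hb, mul_zero, mul_zero]
    rw [e1, add_zero] at this
    rw [← this]
    simp only [mul_assoc]
  have x3 : a * b * a = 0 := by rwa [x2, add_zero] at x1
  rw [x2, x3, add_zero, add_zero] at h
  have x4 : b * a * b = 0 := by
    have := congrArg (fun z => b * z) h
    simp only [mul_add, mul_zero] at this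
    have e1 : b * (b * a) = 0 := by rw [← mul_assoc, hb, zero_mul]
    have e2 : b * (b * a * b) = 0 := by
      rw [mul_assoc b a b, ← mul_assoc b b, hb, zero_mul]
    rw [e1, e2, add_zero, add_zero, ← mul_assoc] at this
    exact this
  rw [x4, add_zero] at h
  exact ⟨eq_neg_of_add_eq_zero_left h, x3, x4⟩

end ring

universe u

variable {α : Type} [DecidableEq α] [Fintype α] {A : Type u} [Ring A]

/-- consequences of `DRel` -/
structure SRel (ρ : MulAut (FreeGroup α) →* A) : Prop where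
  sq : ∀ x a : Lt α, x.1 ≠ a.1 → N ρ x a * N ρ x a = 0
  dj : ∀ x a y b : Lt α, x.1 ≠ a.1 → x.1 ≠ y.1 → x.1 ≠ b.1 → a.1 ≠ y.1 → a.1 ≠ b.1 →
    y.1 ≠ b.1 → N ρ x a * N ρ y b = 0
  same : ∀ {x y z : Lt α}, x.1 ≠ y.1 → x.1 ≠ z.1 → y.1 ≠ z.1 → N ρ x z * N ρ y z = 0

variable {ρ : MulAut (FreeGroup α) →* A}

theorem DRel.srel (H : DRel ρ) (h4 : 4 ≤ Fintype.card α) : SRel ρ :=
  ⟨H.sq h4, H.dj, H.same h4⟩

namespace SRel

variable (H : SRel ρ)

include H

theorem neg {x a : Lt α} (h : x.1 ≠ a.1) : N ρ x (nv a) = - N ρ x a := by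
  have e : ρ (eAut x (nv a)) * ρ (eAut x a) = 1 := by
    rw [rel_aut.e1, ← map_mul, inv_mul_cancel, map_one]
  have e3 : (1 + N ρ x a) * (1 - N ρ x a) = 1 := by
    rw [mul_sub, add_mul, add_mul, H.sq x a h]
    noncomm_ring
  have e4 : ρ (eAut x (nv a)) = 1 - N ρ x a := by
    calc ρ (eAut x (nv a)) = ρ (eAut x (nv a)) * ((1 + N ρ x a) * (1 - N ρ x a)) := by
          rw [e3, mul_one]
      _ = (ρ (eAut x (nv a)) * ρ (eAut x a)) * (1 - N ρ x a) := by rw [rho_eq x a, mul_assoc]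
      _ = _ := by rw [e, one_mul]
  unfold N at e4 ⊢
  rw [e4]
  abel

/-- inverse of `1 + N` -/
theorem rho_inv {x a : Lt α} (h : x.1 ≠ a.1) : ρ (eAut x a)⁻¹ = 1 - N ρ x a := by
  rw [← rel_aut.e1, rho_eq, H.neg h]
  abel

/-- two transvections of the same letter -/
theorem anti {x y z : Lt α} (h1 : x.1 ≠ y.1) (h2 : x.1 ≠ z.1) (h3 : y.1 ≠ z.1) :
    N ρ x y * N ρ x z = -(N ρ x z * N ρ x y) ∧ N ρ x y * N ρ x z * N ρ x y = 0 ∧
      N ρ x z * N ρ x y * N ρ x z = 0 := by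
  have k := c1 rel_aut h1 h2 h3
  have h4 := sq_conj (ρ := ρ) (g := eAut x y) (h := eAut y z) (H.sq x y h1)
  rw [k, map_mul, rho_eq, rho_eq] at h4
  have e : (1 + N ρ x y) * (1 + N ρ x z) - 1 = N ρ x y + N ρ x z + N ρ x y * N ρ x z := by
    noncomm_ring
  rw [e] at h4
  exact anti_aux (H.sq x y h1) (H.sq x z h2) h4

/-- the commutator -/
theorem rho_comm {x y z : Lt α} (h1 : x.1 ≠ y.1) (h2 : x.1 ≠ z.1) (h3 : y.1 ≠ z.1) :
    ρ (MM eAut x y z) = 1 + (N ρ x y * N ρ x z + N ρ x y * N ρ x z) := by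
  obtain ⟨k1, k2, k3⟩ := H.anti h1 h2 h3
  unfold MM
  rw [map_mul, map_mul, map_mul, H.rho_inv h1, H.rho_inv h2, rho_eq, rho_eq]
  have s1 := H.sq x y h1
  have s2 := H.sq x z h2
  have e : (1 + N ρ x y) * (1 + N ρ x z) * (1 - N ρ x y) * (1 - N ρ x z) =
      1 + N ρ x y * N ρ x z - N ρ x z * N ρ x y - N ρ x y * N ρ x y + N ρ x y * N ρ x y * N ρ x z -
      N ρ x z * N ρ x z + N ρ x z * N ρ x y * N ρ x z - N ρ x y * N ρ x z * N ρ x y -
      N ρ x y * (N ρ x z * N ρ x z) + N ρ x y * N ρ x z * N ρ x y * N ρ x z := by noncomm_ring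
  rw [e, s1, s2, k2, k3]
  have k4 : N ρ x z * N ρ x y = -(N ρ x y * N ρ x z) := by rw [k1, neg_neg]
  rw [k4]
  simp only [zero_mul, mul_zero]
  abel

/-- products of two transvections of the same letter -/
theorem samel (h4 : 4 ≤ Fintype.card α) {p y z : Lt α} (h1 : p.1 ≠ y.1) (h2 : p.1 ≠ z.1)
    (h3 : y.1 ≠ z.1) : N ρ p z * N ρ p y = 0 := by
  obtain ⟨i, hi⟩ := exists_out (s := ({p.1, y.1, z.1} : Finset α))
    (lt_of_le_of_lt Finset.card_le_three (by omega))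
  simp only [Finset.mem_insert, Finset.mem_singleton, not_or] at hi
  obtain ⟨i1, i2, i3⟩ := hi
  obtain ⟨x, hx⟩ : ∃ x : Lt α, x.1 = i := ⟨(i, true), rfl⟩
  rw [← hx] at i1 i2 i3
  have k1 := H.dj x z p y i3 i1 i2 (Ne.symm h2) (Ne.symm h3) h1
  have k2 := pr_conj (ρ := ρ) (g := eAut x z) (g' := eAut p y) (h := (eAut p x)⁻¹) k1
  rw [inv_inv, c4 rel_aut (Ne.symm i1) h2 i3, map_mul, rho_eq, rho_eq] at k2
  have k3 := H.same (Ne.symm i1) h2 i3
  rw [map_mul, map_mul, H.rho_inv (Ne.symm i1), rho_eq, rho_eq] at k2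
  obtain ⟨a1, a2, a3⟩ := H.anti (Ne.symm i1) h1 i2
  have sx := H.sq p x (Ne.symm i1)
  set a := N ρ p x
  set b := N ρ p y
  set c := N ρ p z
  set d := N ρ x z
  have e1 : (1 + c) * (1 + d) - 1 = c + d := by
    have : (1 + c) * (1 + d) - 1 = c + d + c * d := by noncomm_ring
    rw [this, k3, add_zero]
  have e2 : (1 - a) * (1 + b) * (1 + a) - 1 = b + (b * a + b * a) := by
    have : (1 - a) * (1 + b) * (1 + a) - 1 = b + b * a - a * b - a * a - a * b * a := by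
      noncomm_ring
    rw [this, sx, a2, a1]
    abel
  rw [e1, e2] at k2
  have e3 : (c + d) * (b + (b * a + b * a)) = c * b * (1 + (a + a)) + d * b * (1 + a + a) := by
    noncomm_ring
  rw [e3, k1, zero_mul, add_zero] at k2
  have e4 : (1 + (a + a)) * (1 - (a + a)) = 1 := by
    have : (1 + (a + a)) * (1 - (a + a)) = 1 - (a * a + a * a + a * a + a * a) := by noncomm_ring
    rw [this, sx]
    simp
  calc c * b = c * b * ((1 + (a + a)) * (1 - (a + a))) := by rw [e4, mul_one]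
    _ = c * b * (1 + (a + a)) * (1 - (a + a)) := by simp only [mul_assoc]
    _ = 0 := by rw [k2, zero_mul]

/-- a right and a left transvection of the same letter -/
theorem opp (h4 : 4 ≤ Fintype.card α) {p y z : Lt α} (h1 : p.1 ≠ y.1) (h2 : p.1 ≠ z.1)
    (h3 : y.1 ≠ z.1) : N ρ (nv p) z * N ρ p y = 0 := by
  obtain ⟨i, hi⟩ := exists_out (s := ({p.1, y.1, z.1} : Finset α))
    (lt_of_le_of_lt Finset.card_le_three (by omega))
  simp only [Finset.mem_insert, Finset.mem_singleton, not_or] at hi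
  obtain ⟨i1, i2, i3⟩ := hi
  obtain ⟨x, hx⟩ : ∃ x : Lt α, x.1 = i := ⟨(i, true), rfl⟩
  rw [← hx] at i1 i2 i3
  have k1 := H.dj x z p y i3 i1 i2 (Ne.symm h2) (Ne.symm h3) h1
  have i1' : (nv p).1 ≠ x.1 := Ne.symm i1
  have k2 := pr_conj (ρ := ρ) (g := eAut x z) (g' := eAut p y) (h := (eAut (nv p) x)⁻¹) k1
  have hc : Commute (eAut p y) (eAut (nv p) x) := RL rel_aut h1 (Ne.symm i1)
  have hc' : (eAut (nv p) x)⁻¹ * eAut p y * eAut (nv p) x = eAut p y := by
    rw [mul_assoc, hc.eq]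
    group
  rw [inv_inv, c4 rel_aut i1' h2 i3, hc', map_mul, rho_eq, rho_eq] at k2
  have k3 := H.same (x := nv p) (y := x) (z := z) i1' h2 i3
  have e1 : (1 + N ρ (nv p) z) * (1 + N ρ x z) - 1 = N ρ (nv p) z + N ρ x z := by
    have : (1 + N ρ (nv p) z) * (1 + N ρ x z) - 1 =
      N ρ (nv p) z + N ρ x z + N ρ (nv p) z * N ρ x z := by noncomm_ring
    rw [this, k3, add_zero]
  rw [e1, rho_eq, add_sub_cancel_left, add_mul, k1, add_zero] at k2
  exact k2

/-- the commutator transvections act trivially -/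
theorem rho_MM (h4 : 4 ≤ Fintype.card α) {x y z : Lt α} (h1 : x.1 ≠ y.1) (h2 : x.1 ≠ z.1)
    (h3 : y.1 ≠ z.1) : ρ (MM eAut x y z) = 1 := by
  rw [H.rho_comm h1 h2 h3, H.samel h4 h2 h1 (Ne.symm h3), add_zero, add_zero]

omit H in
theorem comm_of_conj {g h : MulAut (FreeGroup α)} (e : ρ (g * h * g⁻¹) = ρ h) :
    ρ g * ρ h = ρ h * ρ g := by
  have e1 : ρ g⁻¹ * ρ g = 1 := by rw [← map_mul, inv_mul_cancel, map_one]
  calc ρ g * ρ h = ρ g * ρ h * (ρ g⁻¹ * ρ g) := by rw [e1, mul_one]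
    _ = ρ (g * h * g⁻¹) * ρ g := by rw [map_mul, map_mul]; simp only [mul_assoc]
    _ = _ := by rw [e]

theorem KK_c1 (h4 : 4 ≤ Fintype.card α) {y q z : Lt α} (h1 : y.1 ≠ q.1) (h2 : y.1 ≠ z.1)
    (h3 : q.1 ≠ z.1) : ρ (eAut y q) * ρ (KK eAut y z) = ρ (KK eAut y z) * ρ (eAut y q) := by
  apply comm_of_conj
  rw [E_KK_same rel_aut h1 h2, map_mul, H.rho_MM h4 h1 h2 h3, one_mul]

theorem KK_c2 (h4 : 4 ≤ Fintype.card α) {y q z : Lt α} (h1 : y.1 ≠ q.1) (h2 : y.1 ≠ z.1)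
    (h3 : q.1 ≠ z.1) : ρ (eAut q y) * ρ (KK eAut y z) = ρ (KK eAut y z) * ρ (eAut q y) := by
  apply comm_of_conj
  rw [E_KK_third rel_aut (Ne.symm h1) h3 h2, map_mul,
    H.rho_MM h4 (Ne.symm h1) (show q.1 ≠ (nv z).1 from h3) (show y.1 ≠ (nv z).1 from h2), one_mul]

/-- `ρ(KK y z)` does not depend on `y` -/
theorem KK_indep (h4 : 4 ≤ Fintype.card α) {y q z : Lt α} (h1 : y.1 ≠ q.1) (h2 : y.1 ≠ z.1)
    (h3 : q.1 ≠ z.1) : ρ (KK eAut y z) = ρ (KK eAut q z) := by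
  have R := rel_aut (α := α)
  set σ := sg y q with hσ
  have s1 : (σ : Equiv.Perm (Lt α)) y = nv q := sg_left
  have s2 : (σ : Equiv.Perm (Lt α)) q = y := sg_right h1
  have s3 : ∀ c : Lt α, c.1 ≠ y.1 → c.1 ≠ q.1 → (σ : Equiv.Perm (Lt α)) c = c :=
    fun c => sg_other
  have k1 := R.e4 y q σ h1 s1 s2 s3
  have k2 : toAut σ = eAut (nv y) q * eAut q y * (eAut y q)⁻¹ := by rw [k1]; group
  have h1' : (nv y).1 ≠ q.1 := h1
  have h2' : (nv y).1 ≠ z.1 := h2
  have m1 : ρ (eAut (nv y) q) * ρ (KK eAut y z) = ρ (KK eAut y z) * ρ (eAut (nv y) q) := by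
    have := H.KK_c1 h4 h1' h2' h3
    rwa [KK_nv R] at this
  have m2 := H.KK_c2 h4 h1 h2 h3
  have m3 := H.KK_c1 h4 h1 h2 h3
  have m4 : ρ (eAut y q)⁻¹ * ρ (KK eAut y z) = ρ (KK eAut y z) * ρ (eAut y q)⁻¹ := by
    rw [← R.e1]
    exact H.KK_c1 h4 (show y.1 ≠ (nv q).1 from h1) h2 (show (nv q).1 ≠ z.1 from h3)
  have m5 : ρ (toAut σ) * ρ (KK eAut y z) = ρ (KK eAut y z) * ρ (toAut σ) := by
    rw [k2, map_mul, map_mul, mul_assoc, m4, ← mul_assoc, mul_assoc (ρ (eAut (nv y) q)), m2,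
      ← mul_assoc, m1]
    simp only [mul_assoc]
  have m6 := congrArg ρ (W_KK R σ y z)
  rw [s1, s3 z (Ne.symm h2) (Ne.symm h3), KK_nv R, map_mul, map_mul, m5, mul_assoc, ← map_mul,
    mul_inv_cancel, map_one, mul_one] at m6
  exact m6

end SRel

namespace SRel

variable (H : SRel ρ)

include H

theorem rho_KK (h4 : 4 ≤ Fintype.card α) {y z : Lt α} (h : y.1 ≠ z.1) :
    ρ (KK eAut y z) = 1 + cc ρ z := by
  classical
  have hx : ∃ y : Lt α, y.1 ≠ z.1 := ⟨y, h⟩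
  unfold cc
  rw [dif_pos hx, add_sub_cancel]
  have h1 := hx.choose_spec
  generalize hx.choose = q at h1
  by_cases hq : y.1 = q.1
  · rcases fst_eq_iff.1 hq with rfl | rfl
    · rfl
    · rw [KK_nv rel_aut]
  · exact H.KK_indep h4 hq h h1

theorem cc_eq (h4 : 4 ≤ Fintype.card α) {y z : Lt α} (h : y.1 ≠ z.1) :
    cc ρ z = N ρ y z + N ρ (nv y) z + N ρ y z * N ρ (nv y) z := by
  have h1 := H.rho_KK h4 h
  unfold KK at h1
  rw [map_mul, rho_eq, rho_eq] at h1
  have : cc ρ z = (1 + cc ρ z) - 1 := by abel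
  rw [this, ← h1]
  noncomm_ring

theorem N_cc (h4 : 4 ≤ Fintype.card α) {q z : Lt α} (h : q.1 ≠ z.1) :
    N ρ q z * cc ρ z = 0 := by
  obtain ⟨i, hi⟩ := exists_out (s := ({q.1, z.1} : Finset α))
    (lt_of_le_of_lt Finset.card_le_two (by omega))
  simp only [Finset.mem_insert, Finset.mem_singleton, not_or] at hi
  obtain ⟨i1, i2⟩ := hi
  obtain ⟨x, hx⟩ : ∃ x : Lt α, x.1 = i := ⟨(i, true), rfl⟩
  rw [← hx] at i1 i2
  rw [H.cc_eq h4 i2, mul_add, mul_add, ← mul_assoc, H.same (Ne.symm i1) h i2,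
    H.same (y := nv x) (Ne.symm i1) h i2, zero_mul, add_zero, add_zero]

theorem cc_N (h4 : 4 ≤ Fintype.card α) {q z : Lt α} (h : q.1 ≠ z.1) :
    cc ρ z * N ρ q z = 0 := by
  obtain ⟨i, hi⟩ := exists_out (s := ({q.1, z.1} : Finset α))
    (lt_of_le_of_lt Finset.card_le_two (by omega))
  simp only [Finset.mem_insert, Finset.mem_singleton, not_or] at hi
  obtain ⟨i1, i2⟩ := hi
  obtain ⟨x, hx⟩ : ∃ x : Lt α, x.1 = i := ⟨(i, true), rfl⟩
  rw [← hx] at i1 i2
  rw [H.cc_eq h4 i2, add_mul, add_mul, mul_assoc, H.same i1 i2 h,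
    H.same (x := nv x) i1 i2 h, mul_zero, add_zero, add_zero]

theorem cc_sq (h4 : 4 ≤ Fintype.card α) (z : Lt α) : cc ρ z * cc ρ z = 0 := by
  obtain ⟨i, hi⟩ := exists_out (s := ({z.1} : Finset α))
    (lt_of_le_of_lt (by rw [Finset.card_singleton]) (show 1 < Fintype.card α by omega))
  simp only [Finset.mem_singleton] at hi
  obtain ⟨x, hx⟩ : ∃ x : Lt α, x.1 = i := ⟨(i, true), rfl⟩
  rw [← hx] at hi
  have h' : (nv x).1 ≠ z.1 := hi
  conv_lhs => rw [H.cc_eq h4 hi]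
  rw [mul_add, mul_add, ← mul_assoc, ← H.cc_eq h4 hi, H.cc_N h4 hi, H.cc_N h4 h', zero_mul,
    add_zero, add_zero]

theorem N_nv (h4 : 4 ≤ Fintype.card α) {y z : Lt α} (h : y.1 ≠ z.1) :
    N ρ (nv y) z = cc ρ z - N ρ y z := by
  have h' : (nv y).1 ≠ z.1 := h
  have k1 := H.cc_eq h4 h
  have k2 := H.N_cc h4 h
  rw [k1, mul_add, mul_add, H.sq y z h, ← mul_assoc, H.sq y z h, zero_mul, zero_add,
    add_zero] at k2
  rw [k1, k2, add_zero]
  abel

theorem dj_cc (h4 : 5 ≤ Fintype.card α) {x a z : Lt α} (h1 : x.1 ≠ a.1) (h2 : x.1 ≠ z.1)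
    (h3 : a.1 ≠ z.1) : N ρ x a * cc ρ z = 0 := by
  obtain ⟨i, i1, i2, i3, -⟩ := out4 h4 x.1 a.1 z.1 z.1
  obtain ⟨y, hy⟩ : ∃ y : Lt α, y.1 = i := ⟨(i, true), rfl⟩
  rw [← hy] at i1 i2 i3
  rw [H.cc_eq (by omega) i3, mul_add, mul_add, ← mul_assoc,
    H.dj x a y z h1 (Ne.symm i1) h2 (Ne.symm i2) h3 i3,
    H.dj x a (nv y) z h1 (Ne.symm i1) h2 (Ne.symm i2) h3 i3, zero_mul, add_zero, add_zero]

theorem cc_dj (h4 : 5 ≤ Fintype.card α) {x a z : Lt α} (h1 : x.1 ≠ a.1) (h2 : x.1 ≠ z.1)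
    (h3 : a.1 ≠ z.1) : cc ρ z * N ρ x a = 0 := by
  obtain ⟨i, i1, i2, i3, -⟩ := out4 h4 x.1 a.1 z.1 z.1
  obtain ⟨y, hy⟩ : ∃ y : Lt α, y.1 = i := ⟨(i, true), rfl⟩
  rw [← hy] at i1 i2 i3
  rw [H.cc_eq (by omega) i3, add_mul, add_mul, mul_assoc,
    H.dj y z x a i3 i1 i2 (Ne.symm h2) (Ne.symm h3) h1,
    H.dj (nv y) z x a i3 i1 i2 (Ne.symm h2) (Ne.symm h3) h1, mul_zero, add_zero, add_zero]

theorem cc_cc (h4 : 5 ≤ Fintype.card α) {z w : Lt α} (h : z.1 ≠ w.1) : cc ρ z * cc ρ w = 0 := by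
  obtain ⟨i, i1, i2, -, -⟩ := out4 h4 z.1 w.1 w.1 w.1
  obtain ⟨y, hy⟩ : ∃ y : Lt α, y.1 = i := ⟨(i, true), rfl⟩
  rw [← hy] at i1 i2
  rw [H.cc_eq (by omega) i2, mul_add, mul_add, ← mul_assoc,
    H.cc_dj h4 i2 i1 (Ne.symm h), H.cc_dj h4 (x := nv y) i2 i1 (Ne.symm h), zero_mul, add_zero,
    add_zero]

theorem lie_cc (h4 : 5 ≤ Fintype.card α) {z w : Lt α} (h : z.1 ≠ w.1) :
    N ρ z w * cc ρ z - cc ρ z * N ρ z w = cc ρ w := by
  obtain ⟨i, i1, i2, -, -⟩ := out4 h4 z.1 w.1 w.1 w.1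
  obtain ⟨y, hy⟩ : ∃ y : Lt α, y.1 = i := ⟨(i, true), rfl⟩
  rw [← hy] at i1 i2
  have k := congrArg ρ (E_KK (rel_aut (α := α)) i1 i2 h)
  rw [map_mul, map_mul, map_mul, H.rho_KK (by omega) i1, H.rho_KK (by omega) i2, H.rho_inv h,
    rho_eq] at k
  have s := H.sq z w h
  have t := H.N_cc (by omega) h
  set b := N ρ z w
  set c := cc ρ z
  set d := cc ρ w
  have e1 : (1 + b) * (1 + c) * (1 - b) = 1 + c + b * c - c * b - b * b - b * c * b := by
    noncomm_ring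
  have e2 : (1 + c) * (1 + d) = 1 + c + d := by
    have : (1 + c) * (1 + d) = 1 + c + d + c * d := by noncomm_ring
    rw [this, H.cc_cc h4 h, add_zero]
  rw [e1, e2, s, sub_zero] at k
  have e3 : d = b * c - c * b - b * c * b := by
    calc d = (1 + c + d) - (1 + c) := by abel
      _ = (1 + c + b * c - c * b - b * c * b) - (1 + c) := by rw [← k]
      _ = _ := by abel
  have e4 : b * c * b = 0 := by
    have := t
    rw [e3, mul_sub, mul_sub, ← mul_assoc, ← mul_assoc, ← mul_assoc, ← mul_assoc, s, zero_mul,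
      zero_mul, sub_zero, zero_sub, neg_eq_zero] at this
    exact this
  rw [e3, e4, sub_zero]

/-- the transvections satisfy the relations of matrix units -/
theorem trel (h5 : 5 ≤ Fintype.card α) :
    TRel (fun i j : α => N ρ (j, true) (i, true)) where
  zero := by
    intro i j k l h1 h2 h3 h4
    rcases eq_or_ne i k with rfl | hik
    · rcases eq_or_ne j l with rfl | hjl
      · exact H.sq _ _ (Ne.symm h1)
      · exact H.same hjl (Ne.symm h1) (Ne.symm h2)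
    · rcases eq_or_ne j l with rfl | hjl
      · exact H.samel (by omega) (Ne.symm h2) (Ne.symm h1) (Ne.symm hik)
      · exact H.dj _ _ _ _ (Ne.symm h1) hjl h3 h4 hik (Ne.symm h2)
  lie := by
    intro i j k h1 h2 h3
    have k1 := congrArg ρ (c1 (rel_aut (α := α)) (x := (k, true)) (y := (j, true))
      (z := (i, true)) (Ne.symm h2) (Ne.symm h3) (Ne.symm h1))
    have s := H.sq (j, true) (i, true) (Ne.symm h1)
    have t := H.samel (p := (k, true)) (z := (j, true)) (y := (i, true)) (by omega)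
      (Ne.symm h3) (Ne.symm h2) h1
    have u := H.same (x := (j, true)) (y := (k, true)) (z := (i, true)) h2 (Ne.symm h1)
      (Ne.symm h3)
    rw [map_mul, map_mul, map_mul, H.rho_inv (x := (j, true)) (a := (i, true)) (Ne.symm h1),
      rho_eq, rho_eq, rho_eq] at k1
    show N ρ (j, true) (i, true) * N ρ (k, true) (j, true) -
      N ρ (k, true) (j, true) * N ρ (j, true) (i, true) = N ρ (k, true) (i, true)
    set b := N ρ (j, true) (i, true)
    set c := N ρ (k, true) (j, true)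
    set d := N ρ (k, true) (i, true)
    have e1 : (1 + b) * (1 + c) * (1 - b) = 1 + c + b * c - c * b - b * b - b * c * b := by
      noncomm_ring
    have e2 : (1 + c) * (1 + d) = 1 + c + d := by
      have : (1 + c) * (1 + d) = 1 + c + d + c * d := by noncomm_ring
      rw [this, t, add_zero]
    rw [e1, e2, s, sub_zero] at k1
    have e3 : d = b * c - c * b - b * c * b := by
      calc d = (1 + c + d) - (1 + c) := by abel
        _ = (1 + c + b * c - c * b - b * c * b) - (1 + c) := by rw [← k1]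
        _ = _ := by abel
    have e4 : b * c * b = 0 := by
      have := u
      rw [e3, mul_sub, mul_sub, ← mul_assoc, ← mul_assoc, ← mul_assoc, ← mul_assoc, s, zero_mul,
        zero_mul, sub_zero, zero_sub, neg_eq_zero] at this
      exact this
    rw [e3, e4, sub_zero]

end SRel

end Pool.Agent.W7h60.QR
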