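import Mathlib
import Pool.Agent.W7h60.QR.Str
import Pool.Agent.W7h60.QQ.Good

set_option autoImplicit false
set_option linter.unusedSectionVars false

/-! A quadratic representation of the subgroup generated by the transvections is determined by
the Fox Jacobian modulo the square of the augmentation ideal; over arbitrary rings. -/

namespace Pool.Agent.W7h60.QR

open Pool.Agent.Helper156.OF Pool.Agent.TH271.CU Pool.Agent.W7h60.QQ

universe u v

variable {α : Type} [DecidableEq α] [Fintype α] {R : Type v} [CommRing R]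
variable {A : Type u} [Ring A] [Algebra R A]

variable {ρ : MulAut (FreeGroup α) →* A} (H : SRel ρ)

include H

theorem cv_cv (h5 : 5 ≤ Fintype.card α) (v w : α → R) : cv ρ v * cv ρ w = 0 := by
  unfold cv
  rw [neg_mul_neg, Finset.sum_mul]
  refine Finset.sum_eq_zero fun i _ => ?_
  rw [Finset.mul_sum]
  refine Finset.sum_eq_zero fun j _ => ?_
  rw [smul_mul_smul_comm]
  rcases eq_or_ne i j with rfl | hij
  · rw [H.cc_sq (by omega), smul_zero]
  · rw [H.cc_cc h5 hij, smul_zero]

theorem N_cv (h5 : 5 ≤ Fintype.card α) {i j : α} (hij : i ≠ j) (v : α → R) :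
    N ρ (i, true) (j, true) * cv ρ v =
      cv ρ v * N ρ (i, true) (j, true) + cv ρ (Pi.single j (v i) : α → R) := by
  have e1 : N ρ (i, true) (j, true) * cv ρ v =
      -(v i • (N ρ (i, true) (j, true) * cc ρ (i, true))) := by
    unfold cv
    rw [mul_neg, Finset.mul_sum, Finset.sum_eq_single i]
    · rw [mul_smul_comm]
    · intro k _ hk
      rw [mul_smul_comm]
      rcases eq_or_ne j k with rfl | hjk
      · rw [H.N_cc (by omega) (q := (i, true)) (z := (j, true)) hij, smul_zero]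
      · rw [H.dj_cc h5 (x := (i, true)) (a := (j, true)) (z := (k, true)) hij (Ne.symm hk) hjk,
          smul_zero]
    · intro h; exact absurd (Finset.mem_univ _) h
  have e2 : cv ρ v * N ρ (i, true) (j, true) =
      -(v i • (cc ρ (i, true) * N ρ (i, true) (j, true))) := by
    unfold cv
    rw [neg_mul, Finset.sum_mul, Finset.sum_eq_single i]
    · rw [smul_mul_assoc]
    · intro k _ hk
      rw [smul_mul_assoc]
      rcases eq_or_ne j k with rfl | hjk
      · rw [H.cc_N (by omega) (q := (i, true)) (z := (j, true)) hij, smul_zero]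
      · rw [H.cc_dj h5 (x := (i, true)) (a := (j, true)) (z := (k, true)) hij (Ne.symm hk) hjk,
          smul_zero]
    · intro h; exact absurd (Finset.mem_univ _) h
  rw [e1, e2, cv_single, ← H.lie_cc h5 (z := (i, true)) (w := (j, true)) hij, smul_sub]
  abel

theorem cv_N (h5 : 5 ≤ Fintype.card α) {i j : α} (hij : i ≠ j) (c : R) :
    cv ρ (Pi.single j c : α → R) * N ρ (i, true) (j, true) = 0 := by
  rw [cv_single, neg_mul, smul_mul_assoc, H.cc_N (by omega) (q := (i, true)) (z := (j, true)) hij,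
    smul_zero, neg_zero]

theorem tv_cv (h5 : 5 ≤ Fintype.card α) {i j : α} (hij : i ≠ j) (t : R) (v : α → R) :
    Th (fun i j : α => N ρ (j, true) (i, true)) (tv j i (Ne.symm hij) t) * cv ρ v =
      cv ρ (Matrix.mulVec ((tv j i (Ne.symm hij) t : (Matrix α α R)ˣ) : Matrix α α R) v) *
        Th (fun i j : α => N ρ (j, true) (i, true)) (tv j i (Ne.symm hij) t) := by
  have e0 : Matrix.mulVec ((tv j i (Ne.symm hij) t : (Matrix α α R)ˣ) : Matrix α α R) v =
      v + t • (Pi.single j (v i) : α → R) := by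
    show Matrix.mulVec (1 + Matrix.single j i t) v = _
    rw [Matrix.add_mulVec, Matrix.one_mulVec, Matrix.single_mulVec]
    congr 1
    funext k
    rcases eq_or_ne k j with rfl | hk
    · simp
    · simp [Pi.single_eq_of_ne hk, Function.update_of_ne hk]
  rw [Th_tv (H.trel h5) h5, e0, cv_add, cv_smul]
  show (1 + t • N ρ (i, true) (j, true)) * cv ρ v = (cv ρ v + t • cv ρ (Pi.single j (v i))) *
    (1 + t • N ρ (i, true) (j, true))
  have k1 := N_cv H h5 hij v
  have k2 := cv_N H h5 hij (v i)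
  rw [add_mul, mul_add, one_mul, mul_one, smul_mul_assoc, k1, mul_smul_comm, add_mul,
    smul_mul_assoc, k2, smul_zero, add_zero, smul_add]
  abel

theorem good_one : Good R ρ (1 : MulAut (FreeGroup α)) := by
  refine ⟨?_, ?_, ?_⟩
  · rw [J_one, Matrix.det_one]
    rfl
  · rw [map_one, map_one, kap_one, cv_zero, add_zero, Th_one, one_mul]
  · intro v
    rw [map_one, Th_one, one_mul, mul_one, Units.val_one, Matrix.one_mulVec]

theorem good_mul (h5 : 5 ≤ Fintype.card α) {ψ φ : MulAut (FreeGroup α)}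
    (h1 : Good R ρ ψ) (h2 : Good R ρ φ) : Good R ρ (ψ * φ) := by
  obtain ⟨a1, a2, a3⟩ := h1
  obtain ⟨b1, b2, b3⟩ := h2
  have T := Th_mul (H.trel h5) h5 (G (R := R) ψ) (G (R := R) φ)
  refine ⟨fst_mul' _ _ a1 b1, ?_, ?_⟩
  · rw [map_mul, map_mul, a2, b2, T, kap_mul _ _ a1 b1, cv_add]
    have k1 := a3 (kap (R := R) φ)
    have k2 := cv_cv H h5 (kap (R := R) ψ)
      (Matrix.mulVec ((G (R := R) ψ : (Matrix α α R)ˣ) : Matrix α α R) (kap (R := R) φ))
    set X := Th (fun i j : α => N ρ (j, true) (i, true)) (G (R := R) ψ)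
    set Y := Th (fun i j : α => N ρ (j, true) (i, true)) (G (R := R) φ)
    set c := cv ρ (kap (R := R) ψ)
    set d := cv ρ (kap (R := R) φ)
    set d' := cv ρ
      (Matrix.mulVec ((G (R := R) ψ : (Matrix α α R)ˣ) : Matrix α α R) (kap (R := R) φ))
    calc (1 + c) * X * ((1 + d) * Y) = (1 + c) * (X + X * d) * Y := by noncomm_ring
      _ = (1 + c) * (X + d' * X) * Y := by rw [k1]
      _ = (1 + (c + d') + c * d') * (X * Y) := by noncomm_ring
      _ = _ := by rw [k2, add_zero]
  · intro v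
    rw [map_mul, T, mul_assoc, b3, ← mul_assoc, a3, mul_assoc, Matrix.mulVec_mulVec,
      Units.val_mul]

theorem good_inv (h5 : 5 ≤ Fintype.card α) {ψ : MulAut (FreeGroup α)}
    (h1 : Good R ρ ψ) : Good R ρ ψ⁻¹ := by
  obtain ⟨a1, a2, a3⟩ := h1
  have f1 : (J (R := R) ψ⁻¹).det.fst = 1 := by
    have := det_mul' (R := R) ψ ψ⁻¹
    rw [mul_inv_cancel, J_one, Matrix.det_one] at this
    have := congrArg TrivSqZeroExt.fst this
    rw [TrivSqZeroExt.fst_mul, sgm_fst, a1, mul_one] at this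
    rw [← this]
    rfl
  have T1 : Th (fun i j : α => N ρ (j, true) (i, true)) (G (R := R) ψ⁻¹) *
      Th (fun i j : α => N ρ (j, true) (i, true)) (G (R := R) ψ) = 1 := by
    rw [← Th_mul (H.trel h5) h5, ← map_mul, inv_mul_cancel, map_one, Th_one]
  have T2 : Th (fun i j : α => N ρ (j, true) (i, true)) (G (R := R) ψ) *
      Th (fun i j : α => N ρ (j, true) (i, true)) (G (R := R) ψ⁻¹) = 1 := by
    rw [← Th_mul (H.trel h5) h5, ← map_mul, mul_inv_cancel, map_one, Th_one]
  have k0 : Matrix.mulVec ((G (R := R) ψ : (Matrix α α R)ˣ) : Matrix α α R) (kap (R := R) ψ⁻¹) =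
      - kap (R := R) ψ := by
    have := kap_mul (R := R) ψ ψ⁻¹ a1 f1
    rw [mul_inv_cancel, kap_one] at this
    exact (neg_eq_of_add_eq_zero_right this.symm).symm
  have m1 : ∀ v : α → R, Matrix.mulVec ((G (R := R) ψ : (Matrix α α R)ˣ) : Matrix α α R)
      (Matrix.mulVec ((G (R := R) ψ⁻¹ : (Matrix α α R)ˣ) : Matrix α α R) v) = v := by
    intro v
    rw [Matrix.mulVec_mulVec, ← Units.val_mul, ← map_mul, mul_inv_cancel, map_one, Units.val_one,
      Matrix.one_mulVec]
  have c3 : ∀ v : α → R, Th (fun i j : α => N ρ (j, true) (i, true)) (G (R := R) ψ⁻¹) * cv ρ v =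
    cv ρ (Matrix.mulVec ((G (R := R) ψ⁻¹ : (Matrix α α R)ˣ) : Matrix α α R) v) *
      Th (fun i j : α => N ρ (j, true) (i, true)) (G (R := R) ψ⁻¹) := by
    intro v
    have k := a3 (Matrix.mulVec ((G (R := R) ψ⁻¹ : (Matrix α α R)ˣ) : Matrix α α R) v)
    rw [m1] at k
    set X := Th (fun i j : α => N ρ (j, true) (i, true)) (G (R := R) ψ)
    set Y := Th (fun i j : α => N ρ (j, true) (i, true)) (G (R := R) ψ⁻¹)
    calc Y * cv ρ v = Y * (cv ρ v * X) * Y := by rw [mul_assoc, mul_assoc, T2, mul_one]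
      _ = (Y * X) * cv ρ _ * Y := by rw [← k, ← mul_assoc]
      _ = _ := by rw [T1, one_mul]
  refine ⟨f1, ?_, c3⟩
  have r1 : ρ ψ⁻¹ * ρ ψ = 1 := by rw [← map_mul, inv_mul_cancel, map_one]
  have k := c3 (kap (R := R) ψ)
  have k1 : Matrix.mulVec ((G (R := R) ψ⁻¹ : (Matrix α α R)ˣ) : Matrix α α R) (kap (R := R) ψ) =
      -kap (R := R) ψ⁻¹ := by
    have : kap (R := R) ψ = -(Matrix.mulVec ((G (R := R) ψ : (Matrix α α R)ˣ) : Matrix α α R)
      (kap (R := R) ψ⁻¹)) := by rw [k0, neg_neg]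
    rw [this, Matrix.mulVec_neg, Matrix.mulVec_mulVec, ← Units.val_mul, ← map_mul, inv_mul_cancel,
      map_one, Units.val_one, Matrix.one_mulVec]
  rw [k1, cv_neg] at k
  have sq := cv_cv H h5 (kap (R := R) ψ⁻¹) (kap (R := R) ψ⁻¹)
  set X := Th (fun i j : α => N ρ (j, true) (i, true)) (G (R := R) ψ)
  set Y := Th (fun i j : α => N ρ (j, true) (i, true)) (G (R := R) ψ⁻¹)
  set c := cv ρ (kap (R := R) ψ)
  set c' := cv ρ (kap (R := R) ψ⁻¹)
  -- `(1 + c') Y (1 + c) X = 1`
  have r2 : ((1 + c') * Y) * ρ ψ = 1 := by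
    rw [a2]
    calc (1 + c') * Y * ((1 + c) * X) = (1 + c') * (Y + Y * c) * X := by noncomm_ring
      _ = (1 - c' * c') * (Y * X) := by rw [k]; noncomm_ring
      _ = 1 := by rw [sq, sub_zero, T1, one_mul]
  have r3 : ρ ψ * ρ ψ⁻¹ = 1 := by rw [← map_mul, mul_inv_cancel, map_one]
  calc ρ ψ⁻¹ = (((1 + c') * Y) * ρ ψ) * ρ ψ⁻¹ := by rw [r2, one_mul]
    _ = _ := by rw [mul_assoc, r3, mul_one]

theorem good_R (h5 : 5 ≤ Fintype.card α) {i j : α} (hij : i ≠ j) :
    Good R ρ (eAut (i, true) (j, true)) := by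
  refine ⟨?_, ?_, ?_⟩
  · rw [det_R hij]; rfl
  · have : kap (R := R) (eAut (i, true) (j, true)) = 0 := by
      unfold kap
      rw [det_R hij]
      rfl
    rw [this, cv_zero, add_zero, one_mul, G_R hij, Th_tv (H.trel h5) h5, one_smul, rho_eq]
  · intro v
    rw [G_R hij, tv_cv H h5 hij]

theorem good_L (h5 : 5 ≤ Fintype.card α) {i j : α} (hij : i ≠ j) :
    Good R ρ (eAut (i, false) (j, true)) := by
  refine ⟨?_, ?_, ?_⟩
  · rw [det_L hij]
    simp
  · have : kap (R := R) (eAut (i, false) (j, true)) = -Pi.single j 1 := by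
      unfold kap
      rw [det_L hij]
      simp
    have k1 := H.N_nv (by omega) (y := (i, true)) (z := (j, true)) hij
    have k2 := H.cc_N (by omega) (q := (i, true)) (z := (j, true)) hij
    rw [this, cv_neg, cv_single, neg_neg, one_smul, G_L hij, Th_tv (H.trel h5) h5, rho_eq]
    show 1 + N ρ (nv (i, true)) (j, true) = (1 + cc ρ (j, true)) *
      (1 + (-1 : R) • N ρ (i, true) (j, true))
    rw [k1, neg_smul, one_smul, mul_add, add_mul, add_mul, mul_neg, mul_neg, k2]
    simp only [one_mul, mul_one]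
    abel
  · intro v
    rw [G_L hij, tv_cv H h5 hij]

theorem good_all (h5 : 5 ≤ Fintype.card α) {ψ : MulAut (FreeGroup α)}
    (h : ψ ∈ Subgroup.closure {φ : MulAut (FreeGroup α) | ∃ x a : Lt α, φ = eAut x a}) :
    Good R ρ ψ := by
  induction h using Subgroup.closure_induction with
  | mem φ hφ =>
    obtain ⟨x, a, rfl⟩ := hφ
    by_cases hxa : x.1 = a.1
    · rw [eAut_junk x a hxa]
      exact good_one H
    · obtain ⟨i, b⟩ := x
      obtain ⟨j, c⟩ := a
      have key : ∀ b : Bool, Good R ρ (eAut (i, b) (j, true)) := by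
        intro b
        cases b
        · exact good_L H h5 hxa
        · exact good_R H h5 hxa
      cases c
      · have : eAut (i, b) (j, false) = (eAut (i, b) (j, true))⁻¹ :=
          rel_aut.e1 (i, b) (j, true)
        rw [this]
        exact good_inv H h5 (key b)
      · exact key b
  | one => exact good_one H
  | mul x y _ _ hx hy => exact good_mul H h5 hx hy
  | inv x _ hx => exact good_inv H h5 hx

/-- elements with trivial Jacobian act trivially -/
theorem triv (h5 : 5 ≤ Fintype.card α) {ψ : MulAut (FreeGroup α)}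
    (h : ψ ∈ Subgroup.closure {φ : MulAut (FreeGroup α) | ∃ x a : Lt α, φ = eAut x a})
    (h1 : ∀ i, mg (R := R) (ψ (FreeGroup.of i)) = mg (FreeGroup.of i)) : ρ ψ = 1 := by
  obtain ⟨-, a2, -⟩ := good_all (R := R) H h5 h
  have e1 : J (R := R) ψ = J 1 := by
    apply Matrix.ext
    intro i j
    show (mg (R := R) (ψ (FreeGroup.of i))).v j = (mg (R := R) (FreeGroup.of i)).v j
    rw [h1]
  have e2 : g0 (R := R) ψ = g0 1 := by
    apply Matrix.ext
    intro i j
    rw [← J_fst, e1, J_fst]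
  have e3 : G (R := R) ψ = 1 := by
    apply Units.ext
    rw [G_val, e2, g0_one, Matrix.transpose_one, Units.val_one]
  have e4 : kap (R := R) ψ = 0 := by
    unfold kap
    rw [e1, J_one, Matrix.det_one]
    rfl
  rw [a2, e3, e4, Th_one, cv_zero, add_zero, one_mul]

end Pool.Agent.W7h60.QR
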