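import Mathlib
import Pool.Agent.W7h60.QQ.Sgn
import Pool.Agent.W7h60.QR.Good

set_option autoImplicit false
set_option linter.unusedSectionVars false

/-! Naturality of the Jacobian, and the congruence property for quadratic representations for
which the transvections have finite order. -/

namespace Pool.Agent.W7h60.QR

open Pool.Agent.Helper156.OF Pool.Agent.TH271.CU Pool.Agent.W7h60.QQ

universe u v w

section nat

variable {ι : Type} [Fintype ι] [DecidableEq ι] {R : Type u} [CommRing R] {R' : Type v}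
  [CommRing R']

/-- change of coefficients -/
def ssm (φ : R →+* R') : SS ι R →+* SS ι R' where
  toFun x := TrivSqZeroExt.inl (φ x.fst) + TrivSqZeroExt.inr (fun i => φ (x.snd i))
  map_one' := by
    ext : 1
    · simp
    · funext i; simp
  map_mul' x y := by
    ext : 1
    · simp
    · funext i
      simp
  map_zero' := by
    ext : 1
    · simp
    · funext i; simp
  map_add' x y := by
    ext : 1
    · simp
    · funext i; simp

theorem ssm_fst (φ : R →+* R') (x : SS ι R) : (ssm φ x).fst = φ x.fst := by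
  show (TrivSqZeroExt.inl (φ x.fst) + TrivSqZeroExt.inr (fun i => φ (x.snd i)) : SS ι R').fst = _
  simp

theorem ssm_snd (φ : R →+* R') (x : SS ι R) (i : ι) : (ssm φ x).snd i = φ (x.snd i) := by
  show (TrivSqZeroExt.inl (φ x.fst) + TrivSqZeroExt.inr (fun i => φ (x.snd i)) : SS ι R').snd i = _
  simp

/-- functoriality of the affine group -/
def affm {S S' : Type*} [CommRing S] [CommRing S'] (f : S →+* S') : Aff ι S →* Aff ι S' where
  toFun x := ⟨Units.map f x.a, fun j => f (x.v j)⟩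
  map_one' := by
    ext : 1
    · simp
    · funext j; simp
  map_mul' x y := by
    ext : 1
    · simp
    · funext j; simp

theorem ssm_eu (φ : R →+* R') (v : ι → R) :
    Units.map (ssm (ι := ι) φ : SS ι R →* SS ι R') (eu v) = eu (fun i => φ (v i)) := by
  apply Units.ext
  rw [Units.coe_map]
  show ssm φ (1 + TrivSqZeroExt.inr v) = 1 + TrivSqZeroExt.inr _
  rw [map_add, map_one]
  congr 1
  ext : 1
  · rw [ssm_fst]; simp
  · funext i; rw [ssm_snd]; simp

theorem mg_nat (φ : R →+* R') (u : FreeGroup ι) :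
    mg (R := R') u = affm (ssm φ) (mg (R := R) u) := by
  have : mg (R := R') = (affm (ι := ι) (ssm (ι := ι) φ)).comp (mg (R := R)) := by
    apply FreeGroup.ext_hom
    intro j
    rw [MonoidHom.comp_apply, mg_of, mg_of]
    have hs : (fun i => φ ((Pi.single j 1 : ι → R) i)) = Pi.single j 1 := by
      funext i
      rcases eq_or_ne i j with rfl | hi
      · simp
      · simp [Pi.single_eq_of_ne hi]
    ext : 1
    · show eu (Pi.single j 1) = Units.map _ (eu (Pi.single j 1))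
      have := ssm_eu φ (Pi.single j 1 : ι → R)
      rw [hs] at this
      exact this.symm
    · funext i
      show (Pi.single j 1 : ι → SS ι R') i = ssm φ ((Pi.single j 1 : ι → SS ι R) i)
      rcases eq_or_ne i j with rfl | hi
      · simp
      · simp [Pi.single_eq_of_ne hi]
  rw [this]
  rfl

theorem J_nat (φ : R →+* R') (ψ : MulAut (FreeGroup ι)) :
    J (R := R') ψ = (J (R := R) ψ).map (ssm φ) := by
  apply Matrix.ext
  intro i j
  show (mg (R := R') (ψ (FreeGroup.of i))).v j = ssm φ ((mg (R := R) (ψ (FreeGroup.of i))).v j)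
  rw [mg_nat φ]
  rfl

theorem g0_nat (φ : R →+* R') (ψ : MulAut (FreeGroup ι)) (i j : ι) :
    g0 (R := R') ψ i j = φ (g0 (R := R) ψ i j) := by
  rw [← J_fst, J_nat φ, ← J_fst, Matrix.map_apply, ssm_fst]

theorem kap_nat (φ : R →+* R') (ψ : MulAut (FreeGroup ι)) (i : ι) :
    kap (R := R') ψ i = φ (kap (R := R) ψ i) := by
  unfold kap
  rw [J_nat φ, ← ssm_snd, RingHom.map_det]
  rfl

end nat

section tors

variable {ι : Type} [Fintype ι] [DecidableEq ι] {A : Type u} [Ring A]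

theorem Xo_tors {E : ι → ι → A} (h : TRel E) {m : ℤ} (hm : ∀ i j, i ≠ j → m • E i j = 0) (i j : ι)
    (hij : i ≠ j) (h5 : 5 ≤ Fintype.card ι) : m • Xo E i j = 0 := by
  obtain ⟨k, k1, k2, -, -⟩ := out4 h5 i j j j
  rw [h.Xo_eq hij (Ne.symm k1) k2, ← smul_mul_assoc, hm _ _ (Ne.symm k1), zero_mul]

theorem Xu_tors {E : ι → ι → A} (h : TRel E) {m : ℤ} (hm : ∀ i j, i ≠ j → m • E i j = 0) (i j : ι)
    (h5 : 5 ≤ Fintype.card ι) : m • Xu E i j = 0 := by
  obtain ⟨k, k1, k2, -, -⟩ := out4 h5 i j j j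
  rw [h.Xu_eq h5 (Ne.symm k1) k2, ← smul_mul_assoc, Xo_tors h hm _ _ (Ne.symm k1) h5, zero_mul]

theorem Uu_tors {E : ι → ι → A} (h : TRel E) {m : ℤ} (hm : ∀ i j, i ≠ j → m • E i j = 0) (i j : ι)
    (h5 : 5 ≤ Fintype.card ι) : m • Uu E i j = 0 := by
  have h1 := Xu_tors h.op (m := m) (fun i j hij => by
    rw [← MulOpposite.op_smul, smul_neg, hm i j hij, neg_zero, MulOpposite.op_zero]) i j h5
  unfold Uu
  rw [← MulOpposite.unop_smul, h1, MulOpposite.unop_zero]

theorem LX_tors {X : ι → ι → A} {m : ℤ} (hm : ∀ i j, m • X i j = 0) {P Q : Matrix ι ι ℤ}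
    (hPQ : ∀ i j, ∃ c, P i j = Q i j + c * m) : LX X P = LX X Q := by
  unfold LX
  refine Finset.sum_congr rfl fun i _ => Finset.sum_congr rfl fun j _ => ?_
  obtain ⟨c, hc⟩ := hPQ i j
  rw [hc, add_smul, mul_smul, hm, smul_zero, add_zero]

theorem Th_tors {E : ι → ι → A} (h : TRel E) {m : ℤ} (hm : ∀ i j, i ≠ j → m • E i j = 0)
    (h5 : 5 ≤ Fintype.card ι) (g : (Matrix ι ι ℤ)ˣ)
    (h1 : ∀ i j, ∃ c, (g : Matrix ι ι ℤ) i j = (1 : Matrix ι ι ℤ) i j + c * m)
    (h2 : ∀ i j, ∃ c, ((g⁻¹ : (Matrix ι ι ℤ)ˣ) : Matrix ι ι ℤ) i j =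
      (1 : Matrix ι ι ℤ) i j + c * m) : Th E g = 1 := by
  unfold Th
  rw [LX_tors (fun i j => Xu_tors h hm i j h5) h1, LX_tors (fun i j => Uu_tors h hm i j h5) h2]
  abel

end tors

section cong

variable {α : Type} [DecidableEq α] [Fintype α] {A : Type u} [Ring A]
variable {ρ : MulAut (FreeGroup α) →* A} (H : SRel ρ)

include H

/-- automorphisms with trivial Jacobian modulo `m` act trivially -/
theorem triv_mod (h5 : 5 ≤ Fintype.card α) {m : ℕ}
    (hm : ∀ x a : Lt α, x.1 ≠ a.1 → (m : ℤ) • N ρ x a = 0) {ψ : MulAut (FreeGroup α)}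
    (h : ψ ∈ Sg α)
    (h1 : ∀ i, mg (R := ZMod m) (ψ (FreeGroup.of i)) = mg (FreeGroup.of i)) : ρ ψ = 1 := by
  obtain ⟨-, a2, -⟩ := good_all (R := ℤ) H h5 h
  have e1 : J (R := ZMod m) ψ = J 1 := by
    apply Matrix.ext
    intro i j
    show (mg (R := ZMod m) (ψ (FreeGroup.of i))).v j = (mg (R := ZMod m) (FreeGroup.of i)).v j
    rw [h1]
  have e2 : g0 (R := ZMod m) ψ = g0 1 := by
    apply Matrix.ext
    intro i j
    rw [← J_fst, e1, J_fst]
  have e3 : G (R := ZMod m) ψ = 1 := by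
    apply Units.ext
    rw [G_val, e2, g0_one, Matrix.transpose_one, Units.val_one]
  have e4 : kap (R := ZMod m) ψ = 0 := by
    unfold kap
    rw [e1, J_one, Matrix.det_one]
    rfl
  -- the matrices over the integers
  have d : ∀ (φ : MulAut (FreeGroup α)), G (R := ZMod m) φ = 1 → ∀ i j, ∃ c,
      ((G (R := ℤ) φ : (Matrix α α ℤ)ˣ) : Matrix α α ℤ) i j = (1 : Matrix α α ℤ) i j + c * m := by
    intro φ hφ i j
    have k1 : ((G (R := ZMod m) φ : (Matrix α α (ZMod m))ˣ) : Matrix α α (ZMod m)) i j =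
        (1 : Matrix α α (ZMod m)) i j := by rw [hφ]; rfl
    rw [G_val, Matrix.transpose_apply, g0_nat (Int.castRingHom (ZMod m))] at k1
    have k2 : (1 : Matrix α α (ZMod m)) i j =
        Int.castRingHom (ZMod m) ((1 : Matrix α α ℤ) i j) := by
      rw [Matrix.one_apply, Matrix.one_apply]
      split_ifs <;> simp
    rw [k2, ← sub_eq_zero, ← map_sub, eq_intCast, ZMod.intCast_zmod_eq_zero_iff_dvd] at k1
    obtain ⟨c, hc⟩ := k1
    refine ⟨c, ?_⟩
    rw [G_val, Matrix.transpose_apply]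
    linarith [mul_comm c (m : ℤ)]
  have d1 := d ψ e3
  have d2 := d ψ⁻¹ (by rw [map_inv, e3, inv_one])
  rw [map_inv] at d2
  have hT : Th (fun i j : α => N ρ (j, true) (i, true)) (G (R := ℤ) ψ) = 1 :=
    Th_tors (H.trel h5) (fun i j hij => hm _ _ (Ne.symm hij)) h5 _ d1 d2
  have hc : ∀ j : α, (m : ℤ) • cc ρ (j, true) = 0 := by
    intro j
    obtain ⟨i, i1, -, -, -⟩ := out4 h5 j j j j
    have h1 : ((i, true) : Lt α).1 ≠ ((j, true) : Lt α).1 := i1
    have h2 : (nv (i, true) : Lt α).1 ≠ ((j, true) : Lt α).1 := i1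
    rw [H.cc_eq (by omega) h1, smul_add, smul_add, ← smul_mul_assoc, hm _ _ h1, hm _ _ h2,
      zero_mul, add_zero, add_zero]
  have hk : cv ρ (kap (R := ℤ) ψ) = 0 := by
    unfold cv
    rw [neg_eq_zero]
    refine Finset.sum_eq_zero fun j _ => ?_
    have k1 : kap (R := ZMod m) ψ j = 0 := by rw [e4]; rfl
    rw [kap_nat (Int.castRingHom (ZMod m)), eq_intCast, ZMod.intCast_zmod_eq_zero_iff_dvd] at k1
    obtain ⟨c, hc'⟩ := k1
    rw [hc', mul_comm, mul_smul, hc, smul_zero]
  rw [a2, hT, hk, add_zero, one_mul]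

end cong

end Pool.Agent.W7h60.QR
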