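import Mathlib
import Pool.Agent.W7h60.QR.Dis

set_option autoImplicit false
set_option linter.unusedSectionVars false

/-! If the products of two disjoint `N`'s vanish modulo a two-sided ideal of square zero, then
they vanish. -/

namespace Pool.Agent.W7h60.QR

open Pool.Agent.Helper156.OF Pool.Agent.TH271.CU Pool.Agent.W7h60.QQ

section ring

variable {A : Type*} [Ring A]

theorem ddd {X L1 L2 L3 R1 R2 R3 W1 W2 W3 : A}
    (w1 : W1 = (1 + L1) * X * (1 + R1) - X) (w2 : W2 = (1 + L2) * W1 * (1 + R2) - W1)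
    (w3 : W3 = (1 + L3) * W2 * (1 + R3) - W2)
    (a21 : L2 * L1 * X = 0) (a31 : L3 * L1 * X = 0) (a32 : L3 * L2 * X = 0)
    (b12 : X * (R1 * R2) = 0) (b13 : X * (R1 * R3) = 0) (b23 : X * (R2 * R3) = 0)
    (c23 : R2 * R3 = R3 * R2) : W3 = 0 := by
  have k1 : W1 = L1 * X * (1 + R1) + X * R1 := by rw [w1]; noncomm_ring
  have k2 : W2 = L2 * X * R1 * (1 + R2) + L1 * X * (1 + R1) * R2 := by
    have : W2 = L2 * L1 * X * (1 + R1) * (1 + R2) + L2 * X * R1 * (1 + R2) +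
        L1 * X * (1 + R1) * R2 + X * (R1 * R2) := by
      rw [w2, k1]; noncomm_ring
    rw [this, a21, b12]
    noncomm_ring
  have k3 : W3 = L3 * L2 * X * R1 * (1 + R2) * (1 + R3) + L3 * L1 * X * (1 + R1) * R2 * (1 + R3) +
      L2 * (X * (R1 * ((1 + R2) * R3))) + L1 * (X * (R2 * R3)) + L1 * (X * (R1 * R2)) * R3 := by
    rw [w3, k2]; noncomm_ring
  have k4 : X * (R1 * ((1 + R2) * R3)) = X * (R1 * R3) * (1 + R2) := by
    rw [add_mul, one_mul, c23]; noncomm_ring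
  rw [k3, k4, a32, a31, b13, b23, b12]
  noncomm_ring

theorem cjm {t t' u v : A} (h : t * t' = 1) : t' * (u * v) * t = (t' * u * t) * (t' * v * t) := by
  calc t' * (u * v) * t = t' * u * (t * t') * v * t := by rw [h]; simp only [mul_assoc, one_mul]
    _ = _ := by simp only [mul_assoc]

end ring

universe u

variable {α : Type} [DecidableEq α] [Fintype α] {A : Type u} [Ring A]
variable {ρ : MulAut (FreeGroup α) →* A}

/-- four distinct letters -/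
def Dj (x a y b : Lt α) : Prop := x.1 ≠ a.1 ∧ x.1 ≠ y.1 ∧ x.1 ≠ b.1 ∧ a.1 ≠ y.1 ∧ a.1 ≠ b.1 ∧
  y.1 ≠ b.1

theorem comN {g h : MulAut (FreeGroup α)} (e : Commute g h) :
    Commute (ρ g - 1) (ρ h - 1) := by
  have : Commute (ρ g) (ρ h) := e.map ρ
  exact (this.sub_left (Commute.one_left _)).sub_right
    ((Commute.one_right _).sub_left (Commute.one_left _))

theorem come {g h : MulAut (FreeGroup α)} (e : Commute g h) :
    Commute (ρ g) (ρ h - 1) := (e.map ρ).sub_right (Commute.one_right _)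

theorem Dj.comm {x a y b : Lt α} (h : Dj x a y b) : Commute (eAut x a) (eAut y b) := by
  obtain ⟨h1, h2, h3, h4, h5, h6⟩ := h
  exact rel_aut.e2 x y a b (fun e => h2 (e ▸ rfl)) h3 (Ne.symm h4)

theorem lcomm {a b c : A} (h : Commute a b) : a * (b * c) = b * (a * c) := by
  rw [← mul_assoc, h.eq, mul_assoc]

section lift

variable (hst : ∀ x a y b z c w e : Lt α, Dj x a y b → Dj z c w e →
  N ρ x a * N ρ y b * (N ρ z c * N ρ w e) = 0)

include hst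

/-- the products of three disjoint `N`'s vanish -/
theorem tri (h7 : 7 ≤ Fintype.card α) {x r y b z c : Lt α} (h1 : Dj x r y b) (h2 : Dj x r z c)
    (h3 : Dj y b z c) : N ρ x r * (N ρ y b * N ρ z c) = 0 := by
  obtain ⟨p1, p2, p3, p4, p5, p6⟩ := h1
  obtain ⟨q1, q2, q3, q4, q5, q6⟩ := h2
  obtain ⟨s1, s2, s3, s4, s5, s6⟩ := h3
  obtain ⟨i, hi⟩ := exists_out (s := ({x.1, r.1, y.1, b.1, z.1, c.1} : Finset α))
    (lt_of_le_of_lt Finset.card_le_six (by omega))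
  simp only [Finset.mem_insert, Finset.mem_singleton, not_or] at hi
  obtain ⟨i1, i2, i3, i4, i5, i6⟩ := hi
  obtain ⟨a, ha⟩ : ∃ x : Lt α, x.1 = i := ⟨(i, true), rfl⟩
  rw [← ha] at i1 i2 i3 i4 i5 i6
  have R := rel_aut (α := α)
  have C12 : Commute (N ρ x a) (N ρ y b) :=
    comN (Dj.comm ⟨Ne.symm i1, p2, p3, i3, i4, p6⟩)
  have C2 : Commute (ρ (eAut a r)⁻¹) (N ρ y b) :=
    come (Dj.comm ⟨i2, i3, i4, p4, p5, p6⟩).inv_left
  have C3 : Commute (ρ (eAut a r)⁻¹) (N ρ z c) :=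
    come (Dj.comm ⟨i2, i5, i6, q4, q5, q6⟩).inv_left
  set T := N ρ x a * (N ρ y b * N ρ z c) with hT
  have h1 : N ρ a r * T = 0 := by
    rw [hT, lcomm C12, ← mul_assoc]
    exact hst a r y b x a z c ⟨i2, i3, i4, p4, p5, p6⟩ ⟨Ne.symm i1, q2, q3, i5, i6, q6⟩
  have h2 : T * N ρ a (nv r) = 0 := by
    rw [hT, ← mul_assoc, mul_assoc]
    exact hst x a y b z c a (nv r) ⟨Ne.symm i1, p2, p3, i3, i4, p6⟩
      ⟨q6, Ne.symm i5, Ne.symm q4, Ne.symm i6, Ne.symm q5, i2⟩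
  have k1 : ρ (eAut a r) * T * ρ (eAut a r)⁻¹ = T := by
    rw [← R.e1, rho_eq a r, rho_eq a (nv r), add_mul, h1, add_zero, one_mul, mul_add, h2,
      add_zero, mul_one]
  have k2 : ρ (eAut a r) * N ρ x a * ρ (eAut a r)⁻¹ = N ρ x a + ρ (eAut x a) * N ρ x r := by
    have := congrArg ρ (c1 R (Ne.symm i1) p1 i2)
    rw [map_mul, map_mul, map_mul] at this
    unfold N
    rw [mul_sub, mul_one, sub_mul, this, rmul_inv, mul_sub, mul_one]
    abel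
  have k3 : ρ (eAut a r) * T * ρ (eAut a r)⁻¹ =
      T + ρ (eAut x a) * (N ρ x r * (N ρ y b * N ρ z c)) := by
    have : ρ (eAut a r) * T * ρ (eAut a r)⁻¹ =
        (ρ (eAut a r) * N ρ x a * ρ (eAut a r)⁻¹) * (N ρ y b * N ρ z c) := by
      rw [hT, mul_assoc (ρ (eAut a r)), mul_assoc (N ρ x a), ← (C2.mul_right C3).eq]
      simp only [mul_assoc]
    rw [this, k2, add_mul, ← hT, mul_assoc]
  rw [k1] at k3
  exact cancel_left _ (left_eq_add.1 k3)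

/-- the main relation -/
theorem key {x a y b r s q : Lt α} (hxa : x.1 ≠ a.1) (hxy : x.1 ≠ y.1) (hxb : x.1 ≠ b.1)
    (hxr : x.1 ≠ r.1) (hxs : x.1 ≠ s.1) (hxq : x.1 ≠ q.1) (hay : a.1 ≠ y.1) (hab : a.1 ≠ b.1)
    (har : a.1 ≠ r.1) (has : a.1 ≠ s.1) (haq : a.1 ≠ q.1) (hyb : y.1 ≠ b.1) (hyr : y.1 ≠ r.1)
    (hys : y.1 ≠ s.1) (hyq : y.1 ≠ q.1) (hbr : b.1 ≠ r.1) (hbs : b.1 ≠ s.1) (hbq : b.1 ≠ q.1)
    (hrs : r.1 ≠ s.1) (hrq : r.1 ≠ q.1) (hsq : s.1 ≠ q.1) :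
    ρ (eAut x r) * (N ρ q r * N ρ y s) = N ρ q (nv a) * (N ρ x r * N ρ y s) := by
  have R := rel_aut (α := α)
  -- the elements
  set X := N ρ x a * N ρ y b with hX
  -- first difference
  set W1 := ρ (eAut a r) * X * ρ (eAut a r)⁻¹ - X with hW1
  set W2 := ρ (eAut b s) * W1 * ρ (eAut b s)⁻¹ - W1 with hW2
  set W3 := ρ (eAut q x)⁻¹ * W2 * ρ (eAut q x) - W2 with hW3
  have hW3z : W3 = 0 := by
    refine ddd (X := X) (L1 := N ρ a r) (L2 := N ρ b s) (L3 := N ρ q (nv x))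
      (R1 := N ρ a (nv r)) (R2 := N ρ b (nv s)) (R3 := N ρ q x) (W1 := W1) (W2 := W2) ?_ ?_ ?_
      ?_ ?_ ?_ ?_ ?_ ?_ ?_
    · rw [hW1, ← R.e1, rho_eq a r, rho_eq a (nv r)]
    · rw [hW2, ← R.e1, rho_eq b s, rho_eq b (nv s)]
    · rw [hW3, ← R.e1, rho_eq q x, rho_eq q (nv x)]
    · exact hst b s a r x a y b ⟨hbs, Ne.symm hab, hbr, Ne.symm has, Ne.symm hrs, har⟩
        ⟨hxa, hxy, hxb, hay, hab, hyb⟩
    · exact hst q (nv x) a r x a y b ⟨Ne.symm hxq, Ne.symm haq, Ne.symm hrq, hxa, hxr, har⟩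
        ⟨hxa, hxy, hxb, hay, hab, hyb⟩
    · exact hst q (nv x) b s x a y b ⟨Ne.symm hxq, Ne.symm hbq, Ne.symm hsq, hxb, hxs, hbs⟩
        ⟨hxa, hxy, hxb, hay, hab, hyb⟩
    · exact hst x a y b a (nv r) b (nv s) ⟨hxa, hxy, hxb, hay, hab, hyb⟩
        ⟨har, hab, has, Ne.symm hbr, hrs, hbs⟩
    · exact hst x a y b a (nv r) q x ⟨hxa, hxy, hxb, hay, hab, hyb⟩
        ⟨har, haq, Ne.symm hxa, hrq, Ne.symm hxr, Ne.symm hxq⟩
    · exact hst x a y b b (nv s) q x ⟨hxa, hxy, hxb, hay, hab, hyb⟩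
        ⟨hbs, hbq, Ne.symm hxb, hsq, Ne.symm hxs, Ne.symm hxq⟩
    · exact (comN (Dj.comm (show Dj b (nv s) q x from
        ⟨hbs, hbq, Ne.symm hxb, hsq, Ne.symm hxs, Ne.symm hxq⟩))).eq
  -- compute `W1`
  have conj : ∀ {u v w : Lt α}, u.1 ≠ v.1 → u.1 ≠ w.1 → v.1 ≠ w.1 →
      ρ (eAut v w) * N ρ u v * ρ (eAut v w)⁻¹ = N ρ u v + ρ (eAut u v) * N ρ u w := by
    intro u v w h1 h2 h3
    have := congrArg ρ (c1 R h1 h2 h3)
    rw [map_mul, map_mul, map_mul] at this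
    unfold N
    rw [mul_sub, mul_one, sub_mul, this, rmul_inv, mul_sub, mul_one]
    abel
  have e1 : W1 = ρ (eAut x a) * (N ρ x r * N ρ y b) := by
    have C : Commute (ρ (eAut a r)⁻¹) (N ρ y b) :=
      come (Dj.comm ⟨har, hay, hab, Ne.symm hyr, Ne.symm hbr, hyb⟩).inv_left
    have : ρ (eAut a r) * X * ρ (eAut a r)⁻¹ =
        (ρ (eAut a r) * N ρ x a * ρ (eAut a r)⁻¹) * N ρ y b := by
      rw [hX, mul_assoc (ρ (eAut a r)), mul_assoc (N ρ x a), ← C.eq]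
      simp only [mul_assoc]
    rw [hW1, this, conj hxa hxr har, add_mul, ← hX, mul_assoc]
    abel
  have e2 : W2 = ρ (eAut x a) * (ρ (eAut y b) * (N ρ x r * N ρ y s)) := by
    have C1 : Commute (ρ (eAut b s)) (ρ (eAut x a)) :=
      (Dj.comm ⟨hbs, Ne.symm hxb, Ne.symm hab, Ne.symm hxs, Ne.symm has, hxa⟩).map ρ
    have C2 : Commute (ρ (eAut b s)) (N ρ x r) :=
      come (Dj.comm ⟨hbs, Ne.symm hxb, hbr, Ne.symm hxs, Ne.symm hrs, hxr⟩)
    have C3 : Commute (ρ (eAut y b)) (N ρ x r) :=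
      come (Dj.comm ⟨hyb, Ne.symm hxy, hyr, Ne.symm hxb, hbr, hxr⟩)
    have : ρ (eAut b s) * W1 * ρ (eAut b s)⁻¹ =
        ρ (eAut x a) * (N ρ x r * (ρ (eAut b s) * N ρ y b * ρ (eAut b s)⁻¹)) := by
      rw [e1, ← mul_assoc, C1.eq]
      calc ρ (eAut x a) * ρ (eAut b s) * (N ρ x r * N ρ y b) * ρ (eAut b s)⁻¹
          = ρ (eAut x a) * ((ρ (eAut b s) * N ρ x r) * N ρ y b * ρ (eAut b s)⁻¹) := by
            simp only [mul_assoc]
        _ = _ := by rw [C2.eq]; simp only [mul_assoc]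
    rw [hW2, this, conj hyb hys hbs, e1, mul_add, mul_add, ← mul_assoc (N ρ x r), ← C3.eq]
    rw [mul_assoc (ρ (eAut y b))]
    abel
  -- compute `W3`
  have c4' : ∀ {w : Lt α}, x.1 ≠ w.1 → q.1 ≠ w.1 →
      ρ (eAut q x)⁻¹ * ρ (eAut x w) * ρ (eAut q x) = ρ (eAut q w) * ρ (eAut x w) := by
    intro w h1 h2
    have := congrArg ρ (c4 R (Ne.symm hxq) h2 h1)
    rwa [map_mul, map_mul, map_mul] at this
  have e3 : W3 = ρ (eAut x a) * (ρ (eAut y b) * (N ρ q a * (N ρ x r * N ρ y s) +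
      ρ (eAut q a) * (ρ (eAut x r) * (N ρ q r * N ρ y s)))) := by
    have D1 : Commute (ρ (eAut q x)) (ρ (eAut y b)) :=
      (Dj.comm ⟨Ne.symm hxq, Ne.symm hyq, Ne.symm hbq, hxy, hxb, hyb⟩).map ρ
    have D2 : Commute (ρ (eAut q x)) (N ρ y s) :=
      come (Dj.comm ⟨Ne.symm hxq, Ne.symm hyq, Ne.symm hsq, hxy, hxs, hys⟩)
    have D3 : Commute (ρ (eAut q a)) (ρ (eAut y b)) :=
      (Dj.comm ⟨Ne.symm haq, Ne.symm hyq, Ne.symm hbq, hay, hab, hyb⟩).map ρ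
    have D4 : Commute (ρ (eAut q a)) (ρ (eAut x a)) := (R.comm_same a q x).map ρ
    have D5 : Commute (ρ (eAut x r)) (ρ (eAut q r)) := (R.comm_same r x q).map ρ
    have m1 := c4' hxa (Ne.symm haq)
    have m2 := c4' hxr (Ne.symm hrq)
    have u1 : ρ (eAut q x)⁻¹ * ρ (eAut q x) = 1 := rinv_mul _
    have u2 : ρ (eAut q x) * ρ (eAut q x)⁻¹ = 1 := rmul_inv _
    have m3 : ρ (eAut q x)⁻¹ * N ρ x r * ρ (eAut q x) = N ρ x r + ρ (eAut x r) * N ρ q r := by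
      unfold N
      rw [mul_sub, mul_one, sub_mul, m2, u1, mul_sub, mul_one, ← D5.eq]
      abel
    have m4 : ρ (eAut q x)⁻¹ * ρ (eAut y b) * ρ (eAut q x) = ρ (eAut y b) := by
      rw [mul_assoc, ← D1.eq, ← mul_assoc, u1, one_mul]
    have m5 : ρ (eAut q x)⁻¹ * N ρ y s * ρ (eAut q x) = N ρ y s := by
      rw [mul_assoc, ← D2.eq, ← mul_assoc, u1, one_mul]
    have m6 : ρ (eAut q x)⁻¹ * W2 * ρ (eAut q x) =
        ρ (eAut q a) * ρ (eAut x a) * (ρ (eAut y b) *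
          ((N ρ x r + ρ (eAut x r) * N ρ q r) * N ρ y s)) := by
      rw [e2, cjm u2, cjm u2, cjm u2, m1, m3, m4, m5]
    rw [hW3, m6, e2, D4.eq]
    have x1 : ρ (eAut q a) * (ρ (eAut y b) *
          ((N ρ x r + ρ (eAut x r) * N ρ q r) * N ρ y s)) = ρ (eAut y b) * (ρ (eAut q a) *
          ((N ρ x r + ρ (eAut x r) * N ρ q r) * N ρ y s)) := lcomm D3
    rw [mul_assoc, x1, rho_eq q a]
    noncomm_ring
  rw [hW3z] at e3
  have e4 := cancel_left _ (cancel_left _ e3.symm)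
  have e5 : ρ (eAut x r) * (N ρ q r * N ρ y s) =
      -(ρ (eAut q (nv a)) * (N ρ q a * (N ρ x r * N ρ y s))) := by
    have u3 : ρ (eAut q (nv a)) * ρ (eAut q a) = 1 := by
      rw [R.e1]; exact rinv_mul _
    have := congrArg (fun z => ρ (eAut q (nv a)) * z) e4
    simp only [mul_add, mul_zero] at this
    rw [← mul_assoc (ρ (eAut q (nv a))) (ρ (eAut q a)), u3, one_mul, add_comm] at this
    exact eq_neg_of_add_eq_zero_left this
  rw [e5, N_nv_eq]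
  simp only [neg_mul, mul_assoc]

/-- the products of two disjoint `N`'s vanish -/
theorem lift (h7 : 7 ≤ Fintype.card α) : DRel ρ := by
  have R := rel_aut (α := α)
  constructor
  intro q r y s hqr hqy hqs hry hrs hys
  -- three more letters
  obtain ⟨i, hi⟩ := exists_out (s := ({q.1, r.1, y.1, s.1} : Finset α))
    (lt_of_le_of_lt Finset.card_le_four (by omega))
  simp only [Finset.mem_insert, Finset.mem_singleton, not_or] at hi
  obtain ⟨i1, i2, i3, i4⟩ := hi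
  obtain ⟨x, hx⟩ : ∃ x : Lt α, x.1 = i := ⟨(i, true), rfl⟩
  rw [← hx] at i1 i2 i3 i4
  obtain ⟨j, hj⟩ := exists_out (s := ({q.1, r.1, y.1, s.1, x.1} : Finset α))
    (lt_of_le_of_lt Finset.card_le_five (by omega))
  simp only [Finset.mem_insert, Finset.mem_singleton, not_or] at hj
  obtain ⟨j1, j2, j3, j4, j5⟩ := hj
  obtain ⟨a, ha⟩ : ∃ x : Lt α, x.1 = j := ⟨(j, true), rfl⟩
  rw [← ha] at j1 j2 j3 j4 j5
  obtain ⟨k, hk⟩ := exists_out (s := ({q.1, r.1, y.1, s.1, x.1, a.1} : Finset α))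
    (lt_of_le_of_lt Finset.card_le_six (by omega))
  simp only [Finset.mem_insert, Finset.mem_singleton, not_or] at hk
  obtain ⟨k1, k2, k3, k4, k5, k6⟩ := hk
  obtain ⟨b, hb⟩ : ∃ x : Lt α, x.1 = k := ⟨(k, true), rfl⟩
  rw [← hb] at k1 k2 k3 k4 k5 k6
  set Z := N ρ x r * N ρ y s with hZ
  have e1 : ρ (eAut x r) * (N ρ q r * N ρ y s) = N ρ q a * Z := by
    have := key hst (x := x) (a := nv a) (y := y) (b := b) (r := r) (s := s) (q := q)
      (Ne.symm j5) i3 (Ne.symm k5) i2 i4 i1 j3 (Ne.symm k6) j2 j4 j1 (Ne.symm k3) (Ne.symm hry)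
      hys (Ne.symm hqy) k2 k4 k1 hrs (Ne.symm hqr) (Ne.symm hqs)
    rwa [nv_nv] at this
  have e2 : ρ (eAut x r) * (N ρ q r * N ρ y s) = N ρ q b * Z := by
    have := key hst (x := x) (a := nv b) (y := y) (b := a) (r := r) (s := s) (q := q)
      (Ne.symm k5) i3 (Ne.symm j5) i2 i4 i1 k3 k6 k2 k4 k1 (Ne.symm j3) (Ne.symm hry)
      hys (Ne.symm hqy) j2 j4 j1 hrs (Ne.symm hqr) (Ne.symm hqs)
    rwa [nv_nv] at this
  have e3 : ρ (eAut q a) * Z = ρ (eAut q b) * Z := by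
    rw [rho_eq q a, rho_eq q b, add_mul, add_mul, ← e1, ← e2]
  have t1 : N ρ a b * Z = 0 :=
    tri hst h7 ⟨Ne.symm k6, j5, j2, k5, k2, i2⟩ ⟨Ne.symm k6, j3, j4, k3, k4, hys⟩
      ⟨i2, i3, i4, hry, hrs, hys⟩
  have t2 : ρ (eAut a b) * Z = Z := by rw [rho_eq a b, add_mul, t1, one_mul, add_zero]
  have t3 : ρ (eAut a b)⁻¹ * Z = Z := by
    conv_lhs => rw [← t2]
    rw [← mul_assoc, rinv_mul, one_mul]
  have c := congrArg ρ (c1 R (Ne.symm j1) (Ne.symm k1) (Ne.symm k6))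
  rw [map_mul, map_mul, map_mul] at c
  have C1 : Commute (ρ (eAut a b)) (ρ (eAut q b)) := (R.comm_same b a q).map ρ
  have e4 : ρ (eAut q a) * (ρ (eAut q b) * Z) = ρ (eAut q a) * Z := by
    calc ρ (eAut q a) * (ρ (eAut q b) * Z) = ρ (eAut a b) * ρ (eAut q a) * ρ (eAut a b)⁻¹ * Z := by
          rw [c, mul_assoc]
      _ = ρ (eAut a b) * (ρ (eAut q b) * Z) := by
          rw [mul_assoc _ _ Z, t3, mul_assoc, e3]
      _ = ρ (eAut q a) * Z := by rw [lcomm C1, t2, e3]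
  have e5 : ρ (eAut q a) * (N ρ q b * Z) = 0 := by
    have : N ρ q b * Z = ρ (eAut q b) * Z - Z := by rw [rho_eq q b]; noncomm_ring
    rw [this, mul_sub, e4, sub_self]
  have e6 := cancel_left _ e5
  rw [← e2] at e6
  exact cancel_left _ e6

end lift

end Pool.Agent.W7h60.QR
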