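import Mathlib
import Pool.Agent.W7h60.QR.Lift

set_option autoImplicit false
set_option linter.unusedSectionVars false

/-! If the products of three disjoint `N`'s vanish and some product of two disjoint `N`'s does not
vanish, then the dimension is at least `binom (n - 6) 2`. -/

namespace Pool.Agent.W7h60.QR

open Pool.Agent.Helper156.OF Pool.Agent.TH271.CU Pool.Agent.W7h60.QQ

universe u v

section types

variable {α : Type} [DecidableEq α] [Fintype α] {A : Type u} [Ring A]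
variable {ρ : MulAut (FreeGroup α) →* A}

theorem conj_q {g h1 h2 : MulAut (FreeGroup α)} {Q : A} (hg : Commute (ρ g) Q)
    (h : (ρ h1 - 1) * ((ρ h2 - 1) * Q) = 0) :
    (ρ (g * h1 * g⁻¹) - 1) * ((ρ (g * h2 * g⁻¹) - 1) * Q) = 0 := by
  have e1 : ρ g⁻¹ * ρ g = 1 := rinv_mul _
  have e2 : ρ g * ρ g⁻¹ = 1 := rmul_inv _
  have e3 : ∀ k, ρ (g * k * g⁻¹) - 1 = ρ g * (ρ k - 1) * ρ g⁻¹ := by
    intro k
    rw [map_mul, map_mul, mul_sub, sub_mul, mul_one, e2]
  have hg' : ρ g⁻¹ * Q = Q * ρ g⁻¹ := by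
    calc ρ g⁻¹ * Q = ρ g⁻¹ * Q * (ρ g * ρ g⁻¹) := by rw [e2, mul_one]
      _ = ρ g⁻¹ * (Q * ρ g) * ρ g⁻¹ := by simp only [mul_assoc]
      _ = ρ g⁻¹ * ρ g * Q * ρ g⁻¹ := by rw [← hg.eq]; simp only [mul_assoc]
      _ = _ := by rw [e1, one_mul]
  rw [e3, e3]
  calc ρ g * (ρ h1 - 1) * ρ g⁻¹ * (ρ g * (ρ h2 - 1) * ρ g⁻¹ * Q)
      = ρ g * (ρ h1 - 1) * (ρ g⁻¹ * ρ g) * ((ρ h2 - 1) * (ρ g⁻¹ * Q)) := by
        simp only [mul_assoc]
    _ = ρ g * ((ρ h1 - 1) * ((ρ h2 - 1) * Q)) * ρ g⁻¹ := by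
        rw [e1, hg', mul_one]; simp only [mul_assoc]
    _ = 0 := by rw [h, mul_zero, zero_mul]

theorem sg_comm {Q : A} {y q : Lt α} (h : y.1 ≠ q.1) (h1 : Commute (ρ (eAut (nv y) q)) Q)
    (h2 : Commute (ρ (eAut q y)) Q) (h3 : Commute (ρ (eAut y (nv q))) Q) :
    Commute (ρ (toAut (sg y q))) Q := by
  have R := rel_aut (α := α)
  have k1 := R.e4 y q (sg y q) h sg_left (sg_right h) (fun c => sg_other)
  have k2 : toAut (sg y q) = eAut (nv y) q * eAut q y * eAut y (nv q) := by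
    rw [R.e1, k1]; group
  rw [k2, map_mul, map_mul]
  exact (h1.mul_left h2).mul_left h3

/-- the existence of a type -/
theorem types {x a s : Lt α} (hxa : x.1 ≠ a.1) (hxs : x.1 ≠ s.1) (has : a.1 ≠ s.1) {Q : A}
    (hQ : ∀ u v : Lt α, (u.1 = x.1 ∨ u.1 = a.1 ∨ u.1 = s.1) →
      (v.1 = x.1 ∨ v.1 = a.1 ∨ v.1 = s.1) → Commute (ρ (eAut u v)) Q)
    (h1 : N ρ a s * (N ρ x a * Q) = 0) (h2 : N ρ s x * (N ρ x a * Q) = 0) :
    N ρ x a * Q = 0 := by
  have R := rel_aut (α := α)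
  -- conjugate `h1`
  have b1 : N ρ s (nv a) * (N ρ x s * Q) = 0 := by
    have hc : Commute (ρ (toAut (sg s a))) Q :=
      sg_comm (Ne.symm has) (hQ _ _ (by simp) (by simp)) (hQ _ _ (by simp) (by simp))
        (hQ _ _ (by simp) (by simp))
    have k := conj_q (ρ := ρ) (h1 := eAut a s) (h2 := eAut x a) hc h1
    rw [R.e0, R.e0, sg_left, sg_right (Ne.symm has), sg_other hxs hxa] at k
    exact k
  have b2 : N ρ x s * (N ρ s (nv a) * Q) = 0 := by
    have hc1 : Commute (ρ (toAut (sg x s))) Q :=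
      sg_comm hxs (hQ _ _ (by simp) (by simp)) (hQ _ _ (by simp) (by simp))
        (hQ _ _ (by simp) (by simp))
    have hc2 : Commute (ρ (toAut (sg s a))) Q :=
      sg_comm (Ne.symm has) (hQ _ _ (by simp) (by simp)) (hQ _ _ (by simp) (by simp))
        (hQ _ _ (by simp) (by simp))
    have k := conj_q (ρ := ρ) (h1 := eAut s x) (h2 := eAut x a) hc1 h2
    rw [R.e0, R.e0, sg_left, sg_right hxs, sg_other (Ne.symm hxa) has] at k
    have k2 := conj_q (ρ := ρ) hc2 k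
    rw [R.e0, R.e0, SP.map_nv, sg_left, sg_right (Ne.symm has), sg_other hxs hxa, nv_nv] at k2
    have k3 := conj_q (ρ := ρ) hc2 k2
    rw [R.e0, R.e0, sg_other hxs hxa, sg_right (Ne.symm has), sg_left] at k3
    exact k3
  apply N_of_nv
  have C : Commute (ρ (eAut x (nv a))) (ρ (eAut s (nv a))) := (R.comm_same (nv a) x s).map ρ
  have c := congrArg ρ (c4 R hxs (show x.1 ≠ (nv a).1 from hxa)
    (show s.1 ≠ (nv a).1 from Ne.symm has))
  rw [map_mul, map_mul, map_mul] at c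
  have c' : ρ (eAut s (nv a)) * ρ (eAut x s) =
      ρ (eAut x s) * (ρ (eAut x (nv a)) * ρ (eAut s (nv a))) := by
    rw [← c]
    simp only [← mul_assoc, rmul_inv, one_mul]
  have e1 : ρ (eAut s (nv a)) * (ρ (eAut x s) * Q) = ρ (eAut x s) * (ρ (eAut s (nv a)) * Q) := by
    rw [rho_eq s (nv a), rho_eq x s, add_mul 1 (N ρ x s) Q, mul_add, add_mul _ _ (N ρ x s * Q), b1,
      add_mul 1 (N ρ s (nv a)) Q, mul_add, add_mul _ _ (N ρ s (nv a) * Q), b2]
    noncomm_ring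
  rw [← mul_assoc, c', mul_assoc, mul_assoc] at e1
  have e2 : ρ (eAut x s) * (ρ (eAut s (nv a)) * (N ρ x (nv a) * Q)) = 0 := by
    have : ρ (eAut s (nv a)) * (N ρ x (nv a) * Q) =
        ρ (eAut x (nv a)) * (ρ (eAut s (nv a)) * Q) - ρ (eAut s (nv a)) * Q := by
      rw [lcomm C, rho_eq x (nv a)]
      noncomm_ring
    rw [this, mul_sub, e1, sub_self]
  exact cancel_left _ (cancel_left _ e2)

/-- the builders -/
def bt (t : Bool) (x a r : Lt α) : MulAut (FreeGroup α) := if t then eAut a r else eAut r x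

/-- the detectors -/
def dt (t : Bool) (r s : Lt α) : MulAut (FreeGroup α) := if t then eAut r s else eAut s (nv r)

theorem comm_bb {t t' : Bool} {x a y b r s : Lt α} (h : Dj x a y b) (hrs : r.1 ≠ s.1)
    (hrx : r.1 ≠ x.1) (hra : r.1 ≠ a.1) (hry : r.1 ≠ y.1) (hrb : r.1 ≠ b.1)
    (hsx : s.1 ≠ x.1) (hsa : s.1 ≠ a.1) (hsy : s.1 ≠ y.1) (hsb : s.1 ≠ b.1) :
    Commute (bt t x a r) (bt t' y b s) := by
  obtain ⟨h1, h2, h3, h4, h5, h6⟩ := h
  cases t <;> cases t' <;> unfold bt <;> simp only [if_true, if_false, Bool.false_eq_true]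
  · exact Dj.comm ⟨hrx, hrs, hry, Ne.symm hsx, h2, hsy⟩
  · exact Dj.comm ⟨hrx, hrb, hrs, h3, Ne.symm hsx, Ne.symm hsb⟩
  · exact Dj.comm ⟨Ne.symm hra, Ne.symm hsa, h4, hrs, hry, hsy⟩
  · exact Dj.comm ⟨Ne.symm hra, h5, Ne.symm hsa, hrb, hrs, Ne.symm hsb⟩

theorem comm_db {t t' : Bool} {y b p q r : Lt α} (hpq : p.1 ≠ q.1) (hpr : p.1 ≠ r.1)
    (hqr : q.1 ≠ r.1) (hpy : p.1 ≠ y.1) (hpb : p.1 ≠ b.1) (hqy : q.1 ≠ y.1) (hqb : q.1 ≠ b.1)
    (hry : r.1 ≠ y.1) (hrb : r.1 ≠ b.1) :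
    Commute (dt t p q) (bt t' y b r) := by
  cases t <;> cases t' <;> unfold bt dt <;> simp only [if_true, if_false, Bool.false_eq_true]
  · exact Dj.comm (show Dj q (nv p) r y from ⟨Ne.symm hpq, hqr, hqy, hpr, hpy, hry⟩)
  · exact Dj.comm (show Dj q (nv p) b r from ⟨Ne.symm hpq, hqb, hqr, hpb, hpr, Ne.symm hrb⟩)
  · exact Dj.comm (show Dj p q r y from ⟨hpq, hpr, hpy, hqr, hqy, hry⟩)
  · exact Dj.comm (show Dj p q b r from ⟨hpq, hpb, hpr, hqb, hqr, Ne.symm hrb⟩)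

theorem comm_dd {t t' : Bool} {p q r s : Lt α} (h : Dj p q r s) :
    Commute (dt t p q) (dt t' r s) := by
  obtain ⟨h1, h2, h3, h4, h5, h6⟩ := h
  cases t <;> cases t' <;> unfold dt <;> simp only [if_true, if_false, Bool.false_eq_true]
  · exact Dj.comm (show Dj q (nv p) s (nv r) from
      ⟨Ne.symm h1, h5, h4, h3, h2, Ne.symm h6⟩)
  · exact Dj.comm (show Dj q (nv p) r s from ⟨Ne.symm h1, h4, h5, h2, h3, h6⟩)
  · exact Dj.comm (show Dj p q s (nv r) from ⟨h1, h3, h2, h5, h4, Ne.symm h6⟩)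
  · exact Dj.comm (show Dj p q r s from ⟨h1, h2, h3, h4, h5, h6⟩)

theorem absorb {t : Bool} {x a r s : Lt α} (hrs : r.1 ≠ s.1) (hra : r.1 ≠ a.1)
    (hrx : r.1 ≠ x.1) (hsa : s.1 ≠ a.1) (hsx : s.1 ≠ x.1) {W : A}
    (hW : (ρ (dt t r s) - 1) * W = 0) :
    (ρ (dt t r s) - 1) * ((ρ (bt t x a r) - 1) * W) =
      ρ (bt t x a r) * ((ρ (bt t x a s) - 1) * W) := by
  have R := rel_aut (α := α)
  have key : dt t r s * bt t x a r = bt t x a r * bt t x a s * dt t r s := by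
    cases t <;> unfold bt dt <;> simp only [if_true, if_false, Bool.false_eq_true]
    · have c := c4 R (Ne.symm hrs) hsx hrx
      have d := (R.comm_same x s r).eq
      rw [R.e1, ← d, ← c]
      group
    · have c := c1 R (Ne.symm hra) (Ne.symm hsa) hrs
      rw [← c]
      group
  have k := congrArg ρ key
  rw [map_mul, map_mul, map_mul] at k
  have hW' : ρ (dt t r s) * W = W := by
    rw [sub_mul, one_mul, sub_eq_zero] at hW
    exact hW
  have e1 : ρ (dt t r s) * (ρ (bt t x a r) * W) = ρ (bt t x a r) * (ρ (bt t x a s) * W) := by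
    rw [← mul_assoc, k, mul_assoc, hW', mul_assoc]
  calc (ρ (dt t r s) - 1) * ((ρ (bt t x a r) - 1) * W)
      = ρ (dt t r s) * (ρ (bt t x a r) * W) - ρ (dt t r s) * W - ρ (bt t x a r) * W + W := by
        noncomm_ring
    _ = _ := by rw [e1, hW']; noncomm_ring

section count

variable (htr : ∀ x a y b z c : Lt α, Dj x a y b → Dj x a z c → Dj y b z c →
  N ρ x a * (N ρ y b * N ρ z c) = 0)

include htr

theorem dt_kill {t : Bool} {x a y b p q : Lt α} (h : Dj x a y b) (h1 : Dj p q x a)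
    (h2 : Dj p q y b) : (ρ (dt t p q) - 1) * (N ρ x a * N ρ y b) = 0 := by
  obtain ⟨a1, a2, a3, a4, a5, a6⟩ := h1
  obtain ⟨b1, b2, b3, b4, b5, b6⟩ := h2
  cases t <;> unfold dt <;> simp only [if_true, if_false, Bool.false_eq_true]
  · exact htr q (nv p) x a y b ⟨Ne.symm a1, a4, a5, a2, a3, a6⟩ ⟨Ne.symm b1, b4, b5, b2, b3, b6⟩ h
  · exact htr p q x a y b ⟨a1, a2, a3, a4, a5, a6⟩ ⟨b1, b2, b3, b4, b5, b6⟩ h

/-- a detector for a different letter kills -/
theorem LU_zero {t t1 t2 : Bool} {x a y b p q r s : Lt α} (h : Dj x a y b)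
    (h1 : Dj p q x a) (h2 : Dj p q y b) (h3 : Dj r s x a) (h4 : Dj r s y b) (h5 : Dj p q r s) :
    (ρ (dt t p q) - 1) * ((ρ (bt t1 x a r) - 1) * ((ρ (bt t2 y b s) - 1) *
      (N ρ x a * N ρ y b))) = 0 := by
  have k := dt_kill htr (t := t) h h1 h2
  obtain ⟨a1, a2, a3, a4, a5, a6⟩ := h1
  obtain ⟨b1, b2, b3, b4, b5, b6⟩ := h2
  obtain ⟨c1, c2, c3, c4, c5, c6⟩ := h3
  obtain ⟨d1, d2, d3, d4, d5, d6⟩ := h4
  obtain ⟨e1, e2, e3, e4, e5, e6⟩ := h5
  have C1 : Commute (ρ (dt t p q) - 1) (ρ (bt t1 x a r) - 1) :=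
    comN (comm_db a1 e2 e4 a2 a3 a4 a5 c2 c3)
  have C2 : Commute (ρ (dt t p q) - 1) (ρ (bt t2 y b s) - 1) :=
    comN (comm_db a1 e3 e5 b2 b3 b4 b5 d4 d5)
  rw [lcomm C1, lcomm C2, k, mul_zero, mul_zero]

theorem FU_eq {t1 t2 : Bool} {x a y b p q s1 s2 : Lt α} (h : Dj x a y b)
    (h1 : Dj p s1 x a) (h2 : Dj p s1 y b) (h3 : Dj q s2 x a) (h4 : Dj q s2 y b)
    (h5 : Dj p s1 q s2) :
    (ρ (dt t1 p s1) - 1) * ((ρ (dt t2 q s2) - 1) * ((ρ (bt t1 x a p) - 1) *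
      ((ρ (bt t2 y b q) - 1) * (N ρ x a * N ρ y b)))) =
    ρ (bt t1 x a p) * (ρ (bt t2 y b q) * ((ρ (bt t1 x a s1) - 1) * ((ρ (bt t2 y b s2) - 1) *
      (N ρ x a * N ρ y b)))) := by
  have k1 := dt_kill htr (t := t1) h h1 h2
  have k2 := dt_kill htr (t := t2) h h3 h4
  obtain ⟨a1, a2, a3, a4, a5, a6⟩ := h1
  obtain ⟨b1, b2, b3, b4, b5, b6⟩ := h2
  obtain ⟨c1, c2, c3, c4, c5, c6⟩ := h3
  obtain ⟨d1, d2, d3, d4, d5, d6⟩ := h4
  obtain ⟨e1, e2, e3, e4, e5, e6⟩ := h5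
  have C1 : Commute (ρ (dt t2 q s2) - 1) (ρ (bt t1 x a p) - 1) :=
    comN (comm_db c1 (Ne.symm e2) (Ne.symm e3) c2 c3 c4 c5 a2 a3)
  have C2 : Commute (ρ (dt t1 p s1) - 1) (ρ (bt t2 y b q)) :=
    (come (comm_db a1 e2 e4 b2 b3 b4 b5 d2 d3).symm).symm
  have C3 : Commute (ρ (dt t1 p s1) - 1) (ρ (bt t2 y b s2) - 1) :=
    comN (comm_db a1 e3 e5 b2 b3 b4 b5 d4 d5)
  have C4 : Commute (ρ (bt t1 x a s1) - 1) (ρ (bt t2 y b q)) :=
    (come (comm_bb h e4 a4 a5 b4 b5 c2 c3 d2 d3).symm).symm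
  rw [lcomm C1, absorb e6 d3 d2 d5 d4 k2, absorb e1 a3 a2 a5 a4, lcomm C4]
  rw [lcomm C2, lcomm C3, k1, mul_zero, mul_zero]

end count

theorem comm_in {x a y b s u v : Lt α} (h : Dj x a y b) (h1 : s.1 ≠ y.1) (h2 : s.1 ≠ b.1)
    (hu : u.1 = x.1 ∨ u.1 = a.1 ∨ u.1 = s.1) (hv : v.1 = x.1 ∨ v.1 = a.1 ∨ v.1 = s.1) :
    Commute (eAut u v) (eAut y b) := by
  obtain ⟨c1, c2, c3, c4, c5, c6⟩ := h
  have R := rel_aut (α := α)
  have k1 : u.1 ≠ y.1 := by rcases hu with e | e | e <;> rw [e] <;> assumption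
  have k2 : u.1 ≠ b.1 := by rcases hu with e | e | e <;> rw [e] <;> assumption
  have k3 : v.1 ≠ y.1 := by rcases hv with e | e | e <;> rw [e] <;> assumption
  exact R.e2 u y v b (fun e => k1 (e ▸ rfl)) k2 (Ne.symm k3)

theorem ex_types {x a y b s1 s2 : Lt α} (h : Dj x a y b) (h1 : Dj s1 s2 x a) (h2 : Dj s1 s2 y b)
    (hne : N ρ x a * N ρ y b ≠ 0) : ∃ t1 t2 : Bool,
      (ρ (bt t1 x a s1) - 1) * ((ρ (bt t2 y b s2) - 1) * (N ρ x a * N ρ y b)) ≠ 0 := by
  obtain ⟨a1, a2, a3, a4, a5, a6⟩ := h1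
  obtain ⟨b1, b2, b3, b4, b5, b6⟩ := h2
  have h' := h
  obtain ⟨c1, c2, c3, c4, c5, c6⟩ := h'
  have Cxy : Commute (N ρ x a) (N ρ y b) := comN h.comm
  have hyx : Dj y b x a := ⟨c6, Ne.symm c2, Ne.symm c4, Ne.symm c3, Ne.symm c5, c1⟩
  obtain ⟨t2, ht2⟩ : ∃ t2 : Bool, (ρ (bt t2 y b s2) - 1) * (N ρ y b * N ρ x a) ≠ 0 := by
    by_contra hcon
    push Not at hcon
    have k1 := hcon true
    have k2 := hcon false
    unfold bt at k1 k2
    simp only [if_true, if_false, Bool.false_eq_true] at k1 k2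
    apply hne
    rw [Cxy.eq]
    refine types (ρ := ρ) (x := y) (a := b) (s := s2) c6 (Ne.symm b4) (Ne.symm b5) ?_ k1 k2
    intro u v hu hv
    exact come (comm_in hyx a4 a5 hu hv)
  set Q := (ρ (bt t2 y b s2) - 1) * N ρ y b with hQ
  have e1 : ∀ Z : A, (Z - 1) * (N ρ x a * Q) = (Z - 1) * ((ρ (bt t2 y b s2) - 1) *
      (N ρ x a * N ρ y b)) := by
    intro Z
    have C : Commute (N ρ x a) (ρ (bt t2 y b s2) - 1) := by
      apply comN
      cases t2 <;> unfold bt <;> simp only [if_true, if_false, Bool.false_eq_true]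
      · exact Dj.comm ⟨c1, Ne.symm a4, c2, Ne.symm a5, c4, b4⟩
      · exact Dj.comm ⟨c1, c3, Ne.symm a4, c5, Ne.symm a5, Ne.symm b5⟩
    rw [hQ, lcomm C]
  by_contra hcon
  push Not at hcon
  have k1 := hcon true t2
  have k2 := hcon false t2
  rw [← e1] at k1 k2
  unfold bt at k1 k2
  simp only [if_true, if_false, Bool.false_eq_true] at k1 k2
  have k3 : N ρ x a * Q = 0 := by
    refine types (ρ := ρ) (x := x) (a := a) (s := s1) c1 (Ne.symm a2) (Ne.symm a3) ?_ k1 k2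
    intro u v hu hv
    have d1 : Commute (ρ (eAut u v)) (N ρ y b) := come (comm_in h b2 b3 hu hv)
    have d2 : Commute (ρ (eAut u v)) (ρ (bt t2 y b s2) - 1) := by
      apply come
      cases t2 <;> unfold bt <;> simp only [if_true, if_false, Bool.false_eq_true]
      · exact comm_in (show Dj x a s2 y from ⟨c1, Ne.symm a4, c2, Ne.symm a5, c4, b4⟩) a1 b2 hu hv
      · exact comm_in (show Dj x a b s2 from ⟨c1, c3, Ne.symm a4, c5, Ne.symm a5, Ne.symm b5⟩)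
          b3 a1 hu hv
    exact d2.mul_right d1
  apply ht2
  rw [← Cxy.eq]
  have := e1 1
  calc (ρ (bt t2 y b s2) - 1) * (N ρ x a * N ρ y b) = N ρ x a * Q := by
        have C : Commute (N ρ x a) (ρ (bt t2 y b s2) - 1) := by
          apply comN
          cases t2 <;> unfold bt <;> simp only [if_true, if_false, Bool.false_eq_true]
          · exact Dj.comm ⟨c1, Ne.symm a4, c2, Ne.symm a5, c4, b4⟩
          · exact Dj.comm ⟨c1, c3, Ne.symm a4, c5, Ne.symm a5, Ne.symm b5⟩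
        rw [hQ, lcomm C]
    _ = 0 := k3

end types

section dim

variable {K : Type u} [Field K] {V : Type v} [AddCommGroup V] [Module K V]

theorem li_of {ι : Type} (u : ι → V) (F : ι → Module.End K V)
    (h0 : ∀ i j, i ≠ j → F i (u j) = 0) (h1 : ∀ i, F i (u i) ≠ 0) : LinearIndependent K u := by
  classical
  rw [linearIndependent_iff']
  intro s g hg i hi
  have := congrArg (F i) hg
  rw [map_sum, map_zero, Finset.sum_eq_single i] at this
  · rw [map_smul] at this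
    rcases smul_eq_zero.1 this with h | h
    · exact h
    · exact absurd h (h1 i)
  · intro j _ hj
    rw [map_smul, h0 i j (Ne.symm hj), smul_zero]
  · intro h; exact absurd hi h

variable {α : Type} [DecidableEq α] [Fintype α] [FiniteDimensional K V]

theorem count_le (ρ : MulAut (FreeGroup α) →* Module.End K V)
    (htr : ∀ x a y b z c : Lt α, Dj x a y b → Dj x a z c → Dj y b z c →
      N ρ x a * (N ρ y b * N ρ z c) = 0) {x a y b : Lt α} (h : Dj x a y b)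
    (hne : N ρ x a * N ρ y b ≠ 0) :
    (Fintype.card α - 6).choose 2 ≤ Module.finrank K V := by
  classical
  by_cases h6 : Fintype.card α < 6
  · rw [Nat.sub_eq_zero_of_le h6.le]
    exact Nat.zero_le _
  push Not at h6
  obtain ⟨i, hi⟩ := exists_out (s := ({x.1, a.1, y.1, b.1} : Finset α))
    (lt_of_le_of_lt Finset.card_le_four (by omega))
  obtain ⟨j, hj⟩ := exists_out (s := ({x.1, a.1, y.1, b.1, i} : Finset α))
    (lt_of_le_of_lt Finset.card_le_five (by omega))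
  simp only [Finset.mem_insert, Finset.mem_singleton, not_or] at hi hj
  obtain ⟨i1, i2, i3, i4⟩ := hi
  obtain ⟨j1, j2, j3, j4, j5⟩ := hj
  set s1 : Lt α := (i, true) with hs1
  set s2 : Lt α := (j, true) with hs2
  have hh := h
  obtain ⟨c1, c2, c3, c4, c5, c6⟩ := hh
  obtain ⟨t1, t2, ht⟩ := ex_types (ρ := ρ) (s1 := s1) (s2 := s2) h
    ⟨Ne.symm j5, i1, i2, j1, j2, c1⟩ ⟨Ne.symm j5, i3, i4, j3, j4, c6⟩ hne
  obtain ⟨v, hv⟩ : ∃ v, ((ρ (bt t1 x a s1) - 1) * ((ρ (bt t2 y b s2) - 1) *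
      (N ρ x a * N ρ y b))) v ≠ 0 := by
    by_contra hcon
    push Not at hcon
    exact ht (LinearMap.ext hcon)
  set S : Finset α := {x.1, a.1, y.1, b.1, i, j} with hS
  have hSc : S.card ≤ 6 := Finset.card_le_six
  set P := Finset.powersetCard 2 (Finset.univ \ S) with hP
  have hPc : (Fintype.card α - 6).choose 2 ≤ P.card := by
    rw [hP, Finset.card_powersetCard, Finset.card_sdiff_of_subset (Finset.subset_univ _),
      Finset.card_univ]
    exact Nat.choose_le_choose 2 (by omega)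
  have hch : ∀ T : P, ∃ p q : α, p ≠ q ∧ (T : Finset α) = {p, q} := by
    intro T
    have := (Finset.mem_powersetCard.1 T.2).2
    exact Finset.card_eq_two.1 this
  choose p q hpq hT using hch
  have hout : ∀ (T : P) (k : α), k ∈ (T : Finset α) → k ≠ x.1 ∧ k ≠ a.1 ∧ k ≠ y.1 ∧ k ≠ b.1 ∧
      k ≠ i ∧ k ≠ j := by
    intro T k hk
    have := (Finset.mem_powersetCard.1 T.2).1 hk
    rw [Finset.mem_sdiff, hS] at this
    simpa using this.2
  let pl : P → Lt α := fun T => (p T, true)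
  let ql : P → Lt α := fun T => (q T, true)
  have hp : ∀ T : P, p T ∈ (T : Finset α) := fun T => by rw [hT T]; simp
  have hq : ∀ T : P, q T ∈ (T : Finset α) := fun T => by rw [hT T]; simp
  let U : P → V := fun T => ((ρ (bt t1 x a (pl T)) - 1) * ((ρ (bt t2 y b (ql T)) - 1) *
      (N ρ x a * N ρ y b))) v
  let F : P → Module.End K V := fun T =>
    (ρ (dt t1 (pl T) s1) - 1) * (ρ (dt t2 (ql T) s2) - 1)
  have hli : LinearIndependent K U := by
    refine li_of U F ?_ ?_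
    · intro T T' hTT
      have hpT := hout T _ (hp T)
      have hqT := hout T _ (hq T)
      have hpT' := hout T' _ (hp T')
      have hqT' := hout T' _ (hq T')
      have hpq1 := hpq T
      have hpq2 := hpq T'
      by_cases hm : q T ∈ (T' : Finset α)
      · have hm2 : p T ∉ (T' : Finset α) := by
          intro hm2
          apply hTT
          apply Subtype.ext
          apply Finset.eq_of_subset_of_card_le
          · rw [hT T]
            intro z hz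
            rw [Finset.mem_insert, Finset.mem_singleton] at hz
            rcases hz with rfl | rfl
            · exact hm2
            · exact hm
          · rw [(Finset.mem_powersetCard.1 T.2).2, (Finset.mem_powersetCard.1 T'.2).2]
        have n1 : p T ≠ p T' := fun e => hm2 (e ▸ hp T')
        have n2 : p T ≠ q T' := fun e => hm2 (e ▸ hq T')
        have C : Commute (ρ (dt t1 (pl T) s1) - 1) (ρ (dt t2 (ql T) s2) - 1) :=
          comN (comm_dd (show Dj (pl T) s1 (ql T) s2 from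
            ⟨hpT.2.2.2.2.1, hpq1, hpT.2.2.2.2.2, Ne.symm hqT.2.2.2.2.1, Ne.symm j5,
              hqT.2.2.2.2.2⟩))
        have k := LU_zero htr (t := t1) (t1 := t1) (t2 := t2) (x := x) (a := a) (y := y) (b := b)
          (p := pl T) (q := s1) (r := pl T') (s := ql T') h
          ⟨hpT.2.2.2.2.1, hpT.1, hpT.2.1, i1, i2, c1⟩
          ⟨hpT.2.2.2.2.1, hpT.2.2.1, hpT.2.2.2.1, i3, i4, c6⟩
          ⟨hpq2, hpT'.1, hpT'.2.1, hqT'.1, hqT'.2.1, c1⟩
          ⟨hpq2, hpT'.2.2.1, hpT'.2.2.2.1, hqT'.2.2.1, hqT'.2.2.2.1, c6⟩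
          ⟨hpT.2.2.2.2.1, n1, n2, Ne.symm hpT'.2.2.2.2.1, Ne.symm hqT'.2.2.2.2.1, hpq2⟩
        show (F T) (U T') = 0
        show (((ρ (dt t1 (pl T) s1) - 1) * (ρ (dt t2 (ql T) s2) - 1)) * _) v = 0
        rw [C.eq, mul_assoc, k, mul_zero]
        rfl
      · have n1 : q T ≠ p T' := fun e => hm (e ▸ hp T')
        have n2 : q T ≠ q T' := fun e => hm (e ▸ hq T')
        have k := LU_zero htr (t := t2) (t1 := t1) (t2 := t2) (x := x) (a := a) (y := y) (b := b)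
          (p := ql T) (q := s2) (r := pl T') (s := ql T') h
          ⟨hqT.2.2.2.2.2, hqT.1, hqT.2.1, j1, j2, c1⟩
          ⟨hqT.2.2.2.2.2, hqT.2.2.1, hqT.2.2.2.1, j3, j4, c6⟩
          ⟨hpq2, hpT'.1, hpT'.2.1, hqT'.1, hqT'.2.1, c1⟩
          ⟨hpq2, hpT'.2.2.1, hpT'.2.2.2.1, hqT'.2.2.1, hqT'.2.2.2.1, c6⟩
          ⟨hqT.2.2.2.2.2, n1, n2, Ne.symm hpT'.2.2.2.2.2, Ne.symm hqT'.2.2.2.2.2, hpq2⟩
        show (((ρ (dt t1 (pl T) s1) - 1) * (ρ (dt t2 (ql T) s2) - 1)) * _) v = 0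
        rw [mul_assoc, k, mul_zero]
        rfl
    · intro T
      have hpT := hout T _ (hp T)
      have hqT := hout T _ (hq T)
      have hpq1 := hpq T
      have k := FU_eq htr (t1 := t1) (t2 := t2) (x := x) (a := a) (y := y) (b := b)
        (p := pl T) (q := ql T) (s1 := s1) (s2 := s2) h
        ⟨hpT.2.2.2.2.1, hpT.1, hpT.2.1, i1, i2, c1⟩
        ⟨hpT.2.2.2.2.1, hpT.2.2.1, hpT.2.2.2.1, i3, i4, c6⟩
        ⟨hqT.2.2.2.2.2, hqT.1, hqT.2.1, j1, j2, c1⟩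
        ⟨hqT.2.2.2.2.2, hqT.2.2.1, hqT.2.2.2.1, j3, j4, c6⟩
        ⟨hpT.2.2.2.2.1, hpq1, hpT.2.2.2.2.2, Ne.symm hqT.2.2.2.2.1, Ne.symm j5,
              hqT.2.2.2.2.2⟩
      show (((ρ (dt t1 (pl T) s1) - 1) * (ρ (dt t2 (ql T) s2) - 1)) * _) v ≠ 0
      rw [mul_assoc, k]
      intro h0
      apply hv
      have e : ∀ (g : MulAut (FreeGroup α)) (w : V), ρ g w = 0 → w = 0 := by
        intro g w hw
        have : (ρ g⁻¹ * ρ g) w = w := by rw [rinv_mul]; rfl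
        rw [← this]
        show ρ g⁻¹ (ρ g w) = 0
        rw [hw, map_zero]
      exact e _ _ (e _ _ h0)
  calc (Fintype.card α - 6).choose 2 ≤ P.card := hPc
    _ = Fintype.card P := (Fintype.card_coe P).symm
    _ ≤ Module.finrank K V := hli.fintype_card_le_finrank

end dim

end Pool.Agent.W7h60.QR
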