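import Mathlib
import Pool.Agent.W7h60.QQ.Lin
import Pool.Agent.W7h60.QR.Cnt

set_option autoImplicit false
set_option linter.unusedSectionVars false

/-! Representations of small dimension over fields. -/

namespace Pool.Agent.W7h60.QR

open Pool.Agent.H798R3.MG Pool.Agent.H29R2.MG Pool.Agent.TH35.MG Pool.Agent.TH35.CH
  Pool.Agent.Helper950.BG Pool.Agent.R352.MG Pool.Agent.R352.CH Module
  Pool.Agent.Helper156.OF Pool.Agent.TH271.CU Pool.Agent.W7h60.QQ

universe u v

/-- three disjoint transvections for which the product of the nilpotent parts vanishes -/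
theorem std3 {n d : ℕ} (hkn : 3 + 5 ≤ n / 2) (hd1 : d < (n / 2 - 5).choose 3)
    (hd2 : d < 2 ^ (n / 2 - 4 - 3)) (K : Type u) [Field K]
    (f : MulAut (FreeGroup (Fin n)) →* Matrix.GeneralLinearGroup (Fin d) K) :
    ∃ x a y b z c : Lt (Fin n), Dj x a y b ∧ Dj x a z c ∧ Dj y b z c ∧
      ((f (eAut x a) : Matrix (Fin d) (Fin d) K) - 1) *
        (((f (eAut y b) : Matrix (Fin d) (Fin d) K) - 1) *
          ((f (eAut z c) : Matrix (Fin d) (Fin d) K) - 1)) = 0 := by
  have hg0 : 0 < n / 2 := by omega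
  have hg1 : 1 < n / 2 := by omega
  have hg2 : 2 < n / 2 := by omega
  let γ := (Fin (n / 2) ⊕ Fin (n / 2)) ⊕ Fin (n - (n / 2 + n / 2))
  let e : γ ≃ Fin n :=
    Fintype.equivFinOfCardEq (by
      simp only [γ, Fintype.card_sum, Fintype.card_fin]
      omega)
  let bz : (i : ℕ) → i < n / 2 → γ := fun i hi => Sum.inl (Sum.inr ⟨i, hi⟩)
  let az : (i : ℕ) → i < n / 2 → γ := fun i hi => Sum.inl (Sum.inl ⟨i, hi⟩)
  have hba : ∀ i hi j hj, e (bz i hi) ≠ e (az j hj) := by
    intro i hi j hj h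
    have h7 : (Sum.inr ⟨i, hi⟩ : Fin (n / 2) ⊕ Fin (n / 2)) = Sum.inl ⟨j, hj⟩ :=
      Sum.inl_injective (e.injective h)
    exact Sum.inr_ne_inl h7
  have hbb : ∀ i hi j hj, i ≠ j → e (bz i hi) ≠ e (bz j hj) := by
    intro i hi j hj hij h
    have h7 : (Sum.inr ⟨i, hi⟩ : Fin (n / 2) ⊕ Fin (n / 2)) = Sum.inr ⟨j, hj⟩ :=
      Sum.inl_injective (e.injective h)
    have h8 := Sum.inr_injective h7
    exact hij (congrArg Fin.val h8)
  have haa : ∀ i hi j hj, i ≠ j → e (az i hi) ≠ e (az j hj) := by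
    intro i hi j hj hij h
    have h7 : (Sum.inl ⟨i, hi⟩ : Fin (n / 2) ⊕ Fin (n / 2)) = Sum.inl ⟨j, hj⟩ :=
      Sum.inl_injective (e.injective h)
    have h8 := Sum.inl_injective h7
    exact hij (congrArg Fin.val h8)
  let E : FreeGroup γ ≃* FreeGroup (Fin n) := FreeGroup.freeGroupCongr e
  have hE : ∀ z, E (FreeGroup.of z) = FreeGroup.of (e z) := fun z => by
    show FreeGroup.map e (FreeGroup.of z) = _
    rw [FreeGroup.map.of]
  have c : Ctx (n / 2) (n / 2 - 3) (n / 2 - 3 + 2) := ⟨by omega, le_refl _, by omega⟩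
  have hA : ∀ i (hi : i < n / 2) (_ : i < n / 2 - 3),
      MulAut.congr E (fh (n / 2) (Fin (n - (n / 2 + n / 2))) (sA (n / 2) i)) =
        eAut (e (bz i hi), true) (e (az i hi), true) := by
    intro i hi hi3
    apply aut_ext
    intro k
    obtain ⟨z, rfl⟩ := e.surjective k
    have h3 : MulAut.congr E (fh (n / 2) (Fin (n - (n / 2 + n / 2))) (sA (n / 2) i))
        (FreeGroup.of (e z)) =
        E (fh (n / 2) (Fin (n - (n / 2 + n / 2))) (sA (n / 2) i) (FreeGroup.of z)) := by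
      show E (fh (n / 2) (Fin (n - (n / 2 + n / 2))) (sA (n / 2) i)
        (E.symm (FreeGroup.of (e z)))) = _
      rw [← hE z, MulEquiv.symm_apply_apply]
    rw [h3, aut_R (hba i hi i hi)]
    by_cases hz : z = bz i hi
    · rw [hz, if_pos rfl]
      have h4 : FreeGroup.of (bz i hi) = gb (n / 2) (Fin (n - (n / 2 + n / 2))) i :=
        (gb_of hi).symm
      have h5 : ga (n / 2) (Fin (n - (n / 2 + n / 2))) i = FreeGroup.of (az i hi) := ga_of hi
      rw [h4, A_gb' c hi3, h5, ← h4, map_mul, hE, hE]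
    · have hez : e z ≠ e (bz i hi) := fun h => hz (e.injective h)
      rw [if_neg hez]
      have h6 : fh (n / 2) (Fin (n - (n / 2 + n / 2))) (sA (n / 2) i) (FreeGroup.of z) =
          FreeGroup.of z := by
        rcases z with (q | q) | b
        · rw [← ga_of q.2, A_ga c hi3 q.2]
        · have hq : (q : ℕ) ≠ i := by
            intro h
            apply hz
            show (Sum.inl (Sum.inr q) : γ) = Sum.inl (Sum.inr ⟨i, hi⟩)
            congr 2
            exact Fin.ext h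
          rw [← gb_of q.2, A_gb c hi3 q.2 hq]
        · rw [fh_inr]
      rw [h6, hE]
  let Ψ : MulAut (FreeGroup γ) →* MulAut (FreeGroup (Fin n)) := (MulAut.congr E).toMonoidHom
  have r := inn_rel (β := Fin (n - (n / 2 + n / 2))) c
  have hfr : finrank (AlgebraicClosure K) (Fin d → AlgebraicClosure K) = d := by simp
  have h0 := X_zero r (((glEnd d K).comp f).comp Ψ) (k := 3) (by omega) (by omega)
    (by rw [hfr, show n / 2 - 3 - 2 = n / 2 - 5 by omega]; exact hd1)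
    (by rw [hfr, show n / 2 - 3 - 1 - 3 = n / 2 - 4 - 3 by omega]; exact hd2)
  have h1 := X_list (((glEnd d K).comp f).comp Ψ) r.commAA (E := Finset.range 3) (l := [0, 1, 2])
    (fun i hi => by have := Finset.mem_range.1 hi; omega) (by simp)
    (fun i => by rw [Finset.mem_range]; simp; omega)
  rw [h0] at h1
  simp only [List.map_cons, List.map_nil, List.prod_cons, List.prod_nil, mul_one] at h1
  refine ⟨(e (bz 0 hg0), true), (e (az 0 hg0), true), (e (bz 1 hg1), true),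
    (e (az 1 hg1), true), (e (bz 2 hg2), true), (e (az 2 hg2), true),
    ⟨hba _ _ _ _, hbb _ _ _ _ (by norm_num), hba _ _ _ _, Ne.symm (hba _ _ _ _),
      haa _ _ _ _ (by norm_num), hba _ _ _ _⟩,
    ⟨hba _ _ _ _, hbb _ _ _ _ (by norm_num), hba _ _ _ _, Ne.symm (hba _ _ _ _),
      haa _ _ _ _ (by norm_num), hba _ _ _ _⟩,
    ⟨hba _ _ _ _, hbb _ _ _ _ (by norm_num), hba _ _ _ _, Ne.symm (hba _ _ _ _),
      haa _ _ _ _ (by norm_num), hba _ _ _ _⟩, ?_⟩
  have h2 : ∀ i (hi : i < n / 2) (_ : i < n / 2 - 3), ((glEnd d K).comp f).comp Ψ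
      (fh (n / 2) (Fin (n - (n / 2 + n / 2))) (sA (n / 2) i)) =
      phi' d K (f (eAut (e (bz i hi), true) (e (az i hi), true)) :
        Matrix (Fin d) (Fin d) K) := by
    intro i hi hi3
    rw [phi'_gl, MonoidHom.comp_apply, MonoidHom.comp_apply]
    congr 2
    exact hA i hi hi3
  apply phi'_inj d K
  rw [map_zero, map_mul, map_mul, map_sub, map_sub, map_sub, map_one, ← h2 0 hg0 (by omega),
    ← h2 1 hg1 (by omega), ← h2 2 hg2 (by omega)]
  exact h1

/-- signed permutations with prescribed values -/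
theorem sp_fam {α : Type} [DecidableEq α] : ∀ {m : ℕ} {x y : Fin m → Lt α},
    (∀ i j, i ≠ j → (x i).1 ≠ (x j).1) → (∀ i j, i ≠ j → (y i).1 ≠ (y j).1) →
    ∃ σ : SP α, ∀ k, (σ : Equiv.Perm (Lt α)) (x k) = y k := by
  intro m
  induction m with
  | zero => intro x y _ _; exact ⟨1, fun k => k.elim0⟩
  | succ m ih =>
    intro x y hx hy
    obtain ⟨σ, hσ⟩ := ih (x := fun k => x k.castSucc) (y := fun k => y k.castSucc)
      (fun i j h => hx _ _ (fun e => h (Fin.castSucc_injective _ e)))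
      (fun i j h => hy _ _ (fun e => h (Fin.castSucc_injective _ e)))
    obtain ⟨τ, h1, h2⟩ := sp_step σ (x (Fin.last m)) (y (Fin.last m))
    refine ⟨τ, fun k => ?_⟩
    refine Fin.lastCases ?_ (fun i => ?_) k
    · exact h1
    · rw [h2 _ (hx _ _ (Fin.castSucc_ne_last i)) ?_, hσ]
      rw [hσ]
      exact hy _ _ (Fin.castSucc_ne_last i)

theorem sp_dj {α : Type} [DecidableEq α] {x a y b x' a' y' b' : Lt α} (h : Dj x a y b)
    (h' : Dj x' a' y' b') : ∃ σ : SP α, (σ : Equiv.Perm (Lt α)) x = x' ∧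
      (σ : Equiv.Perm (Lt α)) a = a' ∧ (σ : Equiv.Perm (Lt α)) y = y' ∧
      (σ : Equiv.Perm (Lt α)) b = b' := by
  obtain ⟨a1, a2, a3, a4, a5, a6⟩ := h
  obtain ⟨b1, b2, b3, b4, b5, b6⟩ := h'
  exact sp_four a1 a2 a3 a4 a5 a6 b1 b2 b3 b4 b5 b6

theorem sp_six {α : Type} [DecidableEq α] {x a y b z c x' a' y' b' z' c' : Lt α}
    (h1 : Dj x a y b) (h2 : Dj x a z c) (h3 : Dj y b z c)
    (h1' : Dj x' a' y' b') (h2' : Dj x' a' z' c') (h3' : Dj y' b' z' c') :
    ∃ σ : SP α, (σ : Equiv.Perm (Lt α)) x = x' ∧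
      (σ : Equiv.Perm (Lt α)) a = a' ∧ (σ : Equiv.Perm (Lt α)) y = y' ∧
      (σ : Equiv.Perm (Lt α)) b = b' ∧ (σ : Equiv.Perm (Lt α)) z = z' ∧
      (σ : Equiv.Perm (Lt α)) c = c' := by
  have key : ∀ {x a y b z c : Lt α}, Dj x a y b → Dj x a z c → Dj y b z c →
      ∀ i j : Fin 6, i ≠ j → ((![x, a, y, b, z, c] : Fin 6 → Lt α) i).1 ≠
        ((![x, a, y, b, z, c] : Fin 6 → Lt α) j).1 := by
    intro x a y b z c h1 h2 h3 i j hij
    obtain ⟨a1, a2, a3, a4, a5, a6⟩ := h1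
    obtain ⟨b1, b2, b3, b4, b5, b6⟩ := h2
    obtain ⟨c1, c2, c3, c4, c5, c6⟩ := h3
    fin_cases i <;> fin_cases j <;> first | exact absurd rfl hij | skip
    all_goals simp only [Fin.zero_eta, Fin.mk_one, Fin.reduceFinMk, Matrix.cons_val]
    all_goals first | assumption | (apply Ne.symm; assumption)
  obtain ⟨σ, hσ⟩ := sp_fam (key h1 h2 h3) (key h1' h2' h3')
  exact ⟨σ, hσ 0, hσ 1, hσ 2, hσ 3, hσ 4, hσ 5⟩

/-- conjugation of a vanishing product of three `N`'s -/
theorem pr_conj3 {α : Type} [DecidableEq α] [Fintype α] {A : Type u} [Ring A]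
    {ρ : MulAut (FreeGroup α) →* A} {g g' g'' h : MulAut (FreeGroup α)}
    (hg : (ρ g - 1) * ((ρ g' - 1) * (ρ g'' - 1)) = 0) :
    (ρ (h * g * h⁻¹) - 1) * ((ρ (h * g' * h⁻¹) - 1) * (ρ (h * g'' * h⁻¹) - 1)) = 0 := by
  have e1 : ρ h⁻¹ * ρ h = 1 := rinv_mul _
  have e2 : ρ h * ρ h⁻¹ = 1 := rmul_inv _
  have e3 : ∀ g, ρ (h * g * h⁻¹) - 1 = ρ h * (ρ g - 1) * ρ h⁻¹ := by
    intro g
    rw [map_mul, map_mul, mul_sub, sub_mul, mul_one, e2]
  rw [e3, e3, e3]
  calc ρ h * (ρ g - 1) * ρ h⁻¹ * (ρ h * (ρ g' - 1) * ρ h⁻¹ * (ρ h * (ρ g'' - 1) * ρ h⁻¹))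
      = ρ h * (ρ g - 1) * (ρ h⁻¹ * ρ h) * (ρ g' - 1) * (ρ h⁻¹ * ρ h) * (ρ g'' - 1) * ρ h⁻¹ := by
        simp only [mul_assoc]
    _ = ρ h * ((ρ g - 1) * ((ρ g' - 1) * (ρ g'' - 1))) * ρ h⁻¹ := by
        rw [e1, mul_one, mul_one]; simp only [mul_assoc]
    _ = 0 := by rw [hg, mul_zero, zero_mul]

/-- the condition on the dimension -/
def Bd (n d : ℕ) : Prop := d < (n / 2 - 5).choose 2 ∨ (48 ≤ n ∧ d < (n - 6).choose 2)

theorem num1 : ∀ t, 19 ≤ t → (2 * t + 5).choose 2 ≤ t.choose 3 := by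
  intro t ht
  induction t, ht using Nat.le_induction with
  | base => decide
  | succ t ht ih =>
    have e1 : (2 * (t + 1) + 5).choose 2 = (2 * t + 6) + ((2 * t + 5) + (2 * t + 5).choose 2) := by
      rw [show 2 * (t + 1) + 5 = (2 * t + 6) + 1 by ring, Nat.choose_succ_succ', Nat.choose_one_right,
        show 2 * t + 6 = (2 * t + 5) + 1 by ring, Nat.choose_succ_succ', Nat.choose_one_right]
    have e2 : (t + 1).choose 3 = t.choose 2 + t.choose 3 := Nat.choose_succ_succ' t 2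
    have e3 : 4 * t + 11 ≤ t.choose 2 := by
      rw [Nat.choose_two_right, Nat.le_div_iff_mul_le (by norm_num)]
      obtain ⟨k, rfl⟩ := Nat.exists_eq_add_of_le ht
      rw [show 19 + k - 1 = 18 + k by omega]
      nlinarith
    omega

theorem num2 : ∀ k, 17 ≤ k → (2 * k + 9).choose 2 ≤ 2 ^ k ∧ 4 * k + 19 ≤ 2 ^ k := by
  intro k hk
  induction k, hk using Nat.le_induction with
  | base => exact ⟨by decide, by norm_num⟩
  | succ k hk ih =>
    obtain ⟨i1, i2⟩ := ih
    have e1 : (2 * (k + 1) + 9).choose 2 = (2 * k + 10) + ((2 * k + 9) + (2 * k + 9).choose 2) := by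
      rw [show 2 * (k + 1) + 9 = (2 * k + 10) + 1 by ring, Nat.choose_succ_succ',
        Nat.choose_one_right, show 2 * k + 10 = (2 * k + 9) + 1 by ring, Nat.choose_succ_succ',
        Nat.choose_one_right]
    rw [pow_succ]
    omega

theorem num3 {n d : ℕ} (hn : 48 ≤ n) (hd : d < (n - 6).choose 2) :
    d < (n / 2 - 5).choose 3 ∧ d < 2 ^ (n / 2 - 4 - 3) := by
  obtain ⟨t, ht⟩ : ∃ t, n / 2 = t + 5 := ⟨n / 2 - 5, by omega⟩
  have h1 : (n - 6).choose 2 ≤ (2 * t + 5).choose 2 := Nat.choose_le_choose 2 (by omega)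
  have h2 := num1 t (by omega)
  obtain ⟨k, hk⟩ : ∃ k, t = k + 2 := ⟨t - 2, by omega⟩
  have h3 := (num2 k (by omega)).1
  rw [show n / 2 - 5 = t by omega, show n / 2 - 4 - 3 = k by omega]
  rw [show 2 * t + 5 = 2 * k + 9 by omega] at h1 h2
  omega

/-- the field case, for matrices -/
theorem field_mat {n d : ℕ} (hd : Bd n d) (K : Type u) [Field K]
    (f : MulAut (FreeGroup (Fin n)) →* Matrix.GeneralLinearGroup (Fin d) K) : DRel (rh f) := by
  have R := rel_aut (α := Fin n)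
  rcases hd with hd | ⟨hn, hd⟩
  · obtain ⟨hn, hd2⟩ := dim_facts hd
    obtain ⟨x0, a0, y0, b0, m1, m2, m3, m4, m5, m6, hp⟩ := std hn hd hd2 K f
    constructor
    intro x a y b h1 h2' h3 h4 h5 h6
    obtain ⟨σ, s1, s2, s3, s4⟩ := sp_four m1 m2 m3 m4 m5 m6 h1 h2' h3 h4 h5 h6
    have k := pr_conj (ρ := rh f) (h := toAut σ) hp
    rw [R.e0, R.e0, s1, s2, s3, s4] at k
    exact k
  · obtain ⟨hd1, hd2⟩ := num3 hn hd
    obtain ⟨x0, a0, y0, b0, z0, c0, m1, m2, m3, hp⟩ := std3 (by omega) hd1 hd2 K f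
    have htr : ∀ x a y b z c : Lt (Fin n), Dj x a y b → Dj x a z c → Dj y b z c →
        N (rh f) x a * (N (rh f) y b * N (rh f) z c) = 0 := by
      intro x a y b z c h1 h2 h3
      obtain ⟨σ, s1, s2, s3, s4, s5, s6⟩ := sp_six m1 m2 m3 h1 h2 h3
      have k := pr_conj3 (ρ := rh f) (h := toAut σ) hp
      rw [R.e0, R.e0, R.e0, s1, s2, s3, s4, s5, s6] at k
      exact k
    let T : Matrix (Fin d) (Fin d) K ≃ₐ[K] Module.End K (Fin d → K) := Matrix.toLinAlgEquiv'
    let ρ' : MulAut (FreeGroup (Fin n)) →* Module.End K (Fin d → K) :=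
      (T : Matrix (Fin d) (Fin d) K →* Module.End K (Fin d → K)).comp (rh f)
    have hN : ∀ x a, N ρ' x a = T (N (rh f) x a) := by
      intro x a
      unfold N
      rw [map_sub, map_one]
      rfl
    constructor
    intro x a y b h1 h2 h3 h4 h5 h6
    by_contra hne
    have k := count_le ρ' (by
      intro x a y b z c h1 h2 h3
      rw [hN, hN, hN, ← map_mul, ← map_mul, htr x a y b z c h1 h2 h3, map_zero])
      (show Dj x a y b from ⟨h1, h2, h3, h4, h5, h6⟩) (by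
        rw [hN, hN, ← map_mul]
        intro h0
        exact hne ((map_eq_zero_iff T T.injective).1 h0))
    rw [Fintype.card_fin, Module.finrank_fin_fun] at k
    omega

theorem Bd.mono {n d d' : ℕ} (h : Bd n d) (hd : d' ≤ d) : Bd n d' := by
  rcases h with h | ⟨h1, h2⟩
  · exact Or.inl (lt_of_le_of_lt hd h)
  · exact Or.inr ⟨h1, lt_of_le_of_lt hd h2⟩

theorem Bd.card {n d : ℕ} (h : Bd n d) : 14 ≤ n := by
  rcases h with h | ⟨h1, h2⟩
  · have := (dim_facts h).1
    omega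
  · omega

/-- the field case -/
theorem field_end {n : ℕ} {K : Type u} [Field K] {V : Type v} [AddCommGroup V] [Module K V]
    [FiniteDimensional K V] (hd : Bd n (Module.finrank K V))
    (ρ : MulAut (FreeGroup (Fin n)) →* Module.End K V) : DRel ρ := by
  let b := Module.finBasis K V
  let T : Module.End K V ≃ₐ[K] Matrix (Fin (Module.finrank K V)) (Fin (Module.finrank K V)) K :=
    LinearMap.toMatrixAlgEquiv b
  let g : MulAut (FreeGroup (Fin n)) →* Matrix (Fin (Module.finrank K V))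
      (Fin (Module.finrank K V)) K :=
    (T : Module.End K V →* Matrix (Fin (Module.finrank K V)) (Fin (Module.finrank K V)) K).comp ρ
  let f : MulAut (FreeGroup (Fin n)) →* Matrix.GeneralLinearGroup (Fin (Module.finrank K V)) K :=
    MonoidHom.toHomUnits g
  have hf : rh f = g := by
    ext1 ψ
    rfl
  have H := field_mat hd K f
  rw [hf] at H
  constructor
  intro x a y c h1 h2 h3 h4 h5 h6
  have k := H.dj x a y c h1 h2 h3 h4 h5 h6
  have hN : ∀ x a, N g x a = T (N ρ x a) := by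
    intro x a
    unfold N
    rw [map_sub, map_one]
    rfl
  rw [hN, hN, ← map_mul] at k
  exact (map_eq_zero_iff T T.injective).1 k

end Pool.Agent.W7h60.QR
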