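import Mathlib
import Pool.Agent.Helper156.OF.Nielsen
import Pool.Agent.W7h60.QR.Std

set_option autoImplicit false
set_option linter.unusedSectionVars false

/-! Modules with few generators over arbitrary commutative rings. -/

namespace Pool.Agent.W7h60.QR

open Pool.Agent.Helper156.OF Pool.Agent.TH271.CU Pool.Agent.W7h60.QQ

universe u v

section red

variable {A : Type u} [CommRing A] {M : Type v} [AddCommGroup M] [Module A M]

theorem maps_smul (T : Module.End A M) (I : Ideal A) {w : M}
    (hw : w ∈ (I • ⊤ : Submodule A M)) : T w ∈ (I • ⊤ : Submodule A M) := by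
  have h1 : T w ∈ (I • ⊤ : Submodule A M).map T := Submodule.mem_map_of_mem hw
  rw [Submodule.map_smul''] at h1
  exact Submodule.smul_mono le_rfl le_top h1

theorem maps_smul_mul {T : Module.End A M} {I J : Ideal A}
    (hT : ∀ v, T v ∈ (I • ⊤ : Submodule A M)) {w : M}
    (hw : w ∈ (J • ⊤ : Submodule A M)) : T w ∈ ((J * I) • ⊤ : Submodule A M) := by
  have h1 : T w ∈ (J • ⊤ : Submodule A M).map T := Submodule.mem_map_of_mem hw
  rw [Submodule.map_smul''] at h1
  rw [Submodule.mul_smul]
  refine Submodule.smul_mono le_rfl ?_ h1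
  rintro _ ⟨v, -, rfl⟩
  exact hT v

/-- reduction modulo an ideal -/
def red (I : Ideal A) :
    Module.End A M →+* Module.End (A ⧸ I) (M ⧸ (I • ⊤ : Submodule A M)) where
  toFun T :=
    { toFun := Submodule.mapQ (I • ⊤ : Submodule A M) (I • ⊤ : Submodule A M) T
        (fun _ hw => maps_smul T I hw)
      map_add' := fun x y => map_add _ x y
      map_smul' := by
        intro c x
        obtain ⟨c, rfl⟩ := Ideal.Quotient.mk_surjective c
        obtain ⟨x, rfl⟩ := Submodule.Quotient.mk_surjective _ x
        rw [Module.Quotient.mk_smul_mk]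
        rw [Submodule.mapQ_apply, map_smul, Submodule.mapQ_apply]
        rfl }
  map_one' := by
    apply LinearMap.ext
    intro x
    obtain ⟨x, rfl⟩ := Submodule.Quotient.mk_surjective _ x
    rfl
  map_mul' S T := by
    apply LinearMap.ext
    intro x
    obtain ⟨x, rfl⟩ := Submodule.Quotient.mk_surjective _ x
    rfl
  map_zero' := by
    apply LinearMap.ext
    intro x
    obtain ⟨x, rfl⟩ := Submodule.Quotient.mk_surjective _ x
    rfl
  map_add' S T := by
    apply LinearMap.ext
    intro x
    obtain ⟨x, rfl⟩ := Submodule.Quotient.mk_surjective _ x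
    rfl

theorem red_apply (I : Ideal A) (T : Module.End A M) (x : M) :
    red I T (Submodule.Quotient.mk x) = Submodule.Quotient.mk (T x) := rfl

theorem red_zero {I : Ideal A} {T : Module.End A M} :
    red I T = 0 ↔ ∀ v, T v ∈ (I • ⊤ : Submodule A M) := by
  constructor
  · intro h v
    have := LinearMap.congr_fun h (Submodule.Quotient.mk v)
    rw [red_apply] at this
    exact (Submodule.Quotient.mk_eq_zero _).1 this
  · intro h
    apply LinearMap.ext
    intro x
    obtain ⟨x, rfl⟩ := Submodule.Quotient.mk_surjective _ x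
    rw [red_apply]
    exact (Submodule.Quotient.mk_eq_zero _).2 (h x)

end red

section noeth

variable {α : Type} [DecidableEq α] [Fintype α]
variable {A : Type u} [CommRing A] {M : Type v} [AddCommGroup M] [Module A M]

theorem N_comp {B C : Type*} [Ring B] [Ring C] (ρ : MulAut (FreeGroup α) →* B) (q : B →+* C)
    (x a : Lt α) : N (q.toMonoidHom.comp ρ) x a = q (N ρ x a) := by
  unfold N
  rw [map_sub, map_one]
  rfl

/-- the vanishing modulo an ideal implies the vanishing modulo its square -/
theorem step (h7 : 7 ≤ Fintype.card α) (ρ : MulAut (FreeGroup α) →* Module.End A M)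
    {I : Ideal A}
    (h : ∀ x a y b : Lt α, Dj x a y b → ∀ v, (N ρ x a * N ρ y b) v ∈ (I • ⊤ : Submodule A M)) :
    ∀ x a y b : Lt α, Dj x a y b → ∀ v, (N ρ x a * N ρ y b) v ∈
      ((I * I) • ⊤ : Submodule A M) := by
  have H : DRel ((red (M := M) (I * I)).toMonoidHom.comp ρ) := by
    apply lift _ h7
    intro x a y b z c w e h1 h2
    rw [N_comp, N_comp, N_comp, N_comp, ← map_mul, ← map_mul, ← map_mul, red_zero]
    intro v
    exact maps_smul_mul (T := N ρ x a * N ρ y b) (h x a y b h1) (h z c w e h2 v)
  intro x a y b hd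
  obtain ⟨h1, h2, h3, h4, h5, h6⟩ := hd
  have k := H.dj x a y b h1 h2 h3 h4 h5 h6
  rw [N_comp, N_comp, ← map_mul, red_zero] at k
  exact k

/-- the Noetherian case -/
theorem noeth [IsNoetherianRing A] {n d : ℕ} (hd : Bd n d) (g : Fin d → M)
    (hg : Submodule.span A (Set.range g) = ⊤)
    (ρ : MulAut (FreeGroup (Fin n)) →* Module.End A M) : DRel ρ := by
  have hfin : Module.Finite A M := ⟨⟨(Set.finite_range g).toFinset, by
    rw [Set.Finite.coe_toFinset]; exact hg⟩⟩
  have h7 : 7 ≤ Fintype.card (Fin n) := by
    rw [Fintype.card_fin]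
    have := hd.card
    omega
  constructor
  intro x a y b h1 h2 h3 h4 h5 h6
  have hD : Dj x a y b := ⟨h1, h2, h3, h4, h5, h6⟩
  apply LinearMap.ext
  intro v
  set w := (N ρ x a * N ρ y b) v with hw
  show w = 0
  by_contra hne
  have hann : Ideal.span {a : A | a • w = 0} ≠ ⊤ := by
    intro htop
    apply hne
    have hle : Ideal.span {a : A | a • w = 0} ≤ LinearMap.ker (LinearMap.toSpanSingleton A M w) := by
      rw [Ideal.span_le]
      intro a ha
      rw [SetLike.mem_coe, LinearMap.mem_ker, LinearMap.toSpanSingleton_apply]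
      exact ha
    rw [htop] at hle
    have h1 : (1 : A) ∈ LinearMap.ker (LinearMap.toSpanSingleton A M w) := hle trivial
    rw [LinearMap.mem_ker, LinearMap.toSpanSingleton_apply, one_smul] at h1
    exact h1
  obtain ⟨m, hm, hle⟩ := Ideal.exists_le_maximal _ hann
  let _ : Field (A ⧸ m) := Ideal.Quotient.field m
  -- the field case
  have base : ∀ x a y b : Lt (Fin n), Dj x a y b →
      ∀ v, (N ρ x a * N ρ y b) v ∈ (m • ⊤ : Submodule A M) := by
    have hspan : Submodule.span (A ⧸ m)
        (Set.range (fun i => (Submodule.Quotient.mk (g i) : M ⧸ (m • ⊤ : Submodule A M)))) = ⊤ := by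
      rw [eq_top_iff]
      rintro z -
      obtain ⟨z, rfl⟩ := Submodule.Quotient.mk_surjective _ z
      have hz : z ∈ Submodule.span A (Set.range g) := by rw [hg]; trivial
      induction hz using Submodule.span_induction with
      | mem z hz =>
        obtain ⟨i, rfl⟩ := hz
        exact Submodule.subset_span ⟨i, rfl⟩
      | zero => exact Submodule.zero_mem _
      | add z z' _ _ h1 h2 => exact Submodule.add_mem _ h1 h2
      | smul c z _ h1 =>
        rw [← Module.Quotient.mk_smul_mk]
        exact Submodule.smul_mem _ _ h1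
    have hfr : Module.finrank (A ⧸ m) (M ⧸ (m • ⊤ : Submodule A M)) ≤ d := by
      have := finrank_le_of_span_eq_top hspan
      rwa [Fintype.card_fin] at this
    have H := field_end (hd.mono hfr)
      ((red (M := M) m).toMonoidHom.comp ρ)
    intro x a y b hD
    obtain ⟨h1, h2, h3, h4, h5, h6⟩ := hD
    have k := H.dj x a y b h1 h2 h3 h4 h5 h6
    rw [N_comp, N_comp, ← map_mul, red_zero] at k
    exact k
  have all : ∀ k : ℕ, ∀ x a y b : Lt (Fin n), Dj x a y b →
      ∀ v, (N ρ x a * N ρ y b) v ∈ (m ^ (2 ^ k) • ⊤ : Submodule A M) := by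
    intro k
    induction k with
    | zero =>
      rw [pow_zero, pow_one]
      exact base
    | succ k ih =>
      rw [pow_succ, mul_two, pow_add]
      exact step h7 ρ ih
  have hmem : w ∈ (⨅ i : ℕ, m ^ i • ⊤ : Submodule A M) := by
    rw [Submodule.mem_iInf]
    intro i
    have h1 := all i x a y b hD v
    exact Submodule.smul_mono_left (Ideal.pow_le_pow_right Nat.lt_two_pow_self.le) h1
  obtain ⟨r, hr⟩ := (m.mem_iInf_smul_pow_eq_bot_iff w).1 hmem
  have h1 : (1 - (r : A)) ∈ m := by
    apply hle
    apply Ideal.subset_span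
    show (1 - (r : A)) • w = 0
    rw [sub_smul, one_smul, hr, sub_self]
  apply hm.ne_top
  rw [Ideal.eq_top_iff_one]
  have := m.add_mem h1 r.2
  rwa [sub_add_cancel] at this

end noeth

section general

theorem genSet_finite {α : Type} [DecidableEq α] [Fintype α] : (genSet α).Finite := by
  have h1 : (Set.range (toAut : SP α → MulAut (FreeGroup α))).Finite := by
    have : Finite (SP α) := inferInstance
    exact Set.finite_range _
  have h2 : (Set.range (fun p : Lt α × Lt α => eAut p.1 p.2)).Finite := Set.finite_range _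
  refine (h1.union h2).subset ?_
  rintro φ (⟨σ, rfl⟩ | ⟨x, a, -, rfl⟩)
  · exact Or.inl ⟨σ, rfl⟩
  · exact Or.inr ⟨(x, a), rfl⟩

variable {A : Type u} [CommRing A] {M : Type v} [AddCommGroup M] [Module A M]

/-- the general case -/
theorem general {n d : ℕ} (hd : Bd n d) (g : Fin d → M)
    (hg : Submodule.span A (Set.range g) = ⊤)
    (ρ : MulAut (FreeGroup (Fin n)) →* Module.End A M) : DRel ρ := by
  classical
  have hex : ∀ (φ : MulAut (FreeGroup (Fin n))) (i : Fin d),
      ∃ c : Fin d → A, ∑ j, c j • g j = ρ φ (g i) := by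
    intro φ i
    apply (Submodule.mem_span_range_iff_exists_fun A).1
    rw [hg]
    trivial
  choose c hc using hex
  set S : Set (MulAut (FreeGroup (Fin n))) := genSet (Fin n) ∪ (genSet (Fin n))⁻¹ with hS
  have hSf : S.Finite := genSet_finite.union genSet_finite.inv
  set T : Set A := (fun p : MulAut (FreeGroup (Fin n)) × (Fin d × Fin d) => c p.1 p.2.1 p.2.2) ''
    (S ×ˢ Set.univ) with hT
  have hTf : T.Finite := (hSf.prod Set.finite_univ).image _
  let A0 : Subalgebra ℤ A := Algebra.adjoin ℤ T
  have hfg : A0.FG := by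
    have := Subalgebra.fg_adjoin_finset (R := ℤ) hTf.toFinset
    rwa [Set.Finite.coe_toFinset] at this
  have hft : Algebra.FiniteType ℤ A0 := (Subalgebra.fg_iff_finiteType _).1 hfg
  have hno : IsNoetherianRing A0 := Algebra.FiniteType.isNoetherianRing ℤ A0
  let M0 : Submodule A0 M := Submodule.span A0 (Set.range g)
  have hst : ∀ φ, ∀ v ∈ M0, ρ φ v ∈ M0 := by
    intro φ
    have hφ : φ ∈ Submonoid.closure S := by
      have h1 := nielsen_generation φ
      rw [← Subgroup.mem_toSubmonoid, Subgroup.closure_toSubmonoid] at h1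
      exact h1
    induction hφ using Submonoid.closure_induction with
    | mem φ hφ =>
      intro v hv
      induction hv using Submodule.span_induction with
      | mem v hv =>
        obtain ⟨i, rfl⟩ := hv
        rw [← hc φ i]
        refine Submodule.sum_mem _ fun j _ => ?_
        have h1 : c φ i j ∈ A0 := Algebra.subset_adjoin ⟨(φ, (i, j)), ⟨hφ, trivial⟩, rfl⟩
        exact Submodule.smul_mem M0 (⟨c φ i j, h1⟩ : A0) (Submodule.subset_span ⟨j, rfl⟩)
      | zero => rw [map_zero]; exact Submodule.zero_mem _
      | add v w _ _ h1 h2 => rw [map_add]; exact Submodule.add_mem _ h1 h2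
      | smul a v _ h1 =>
        have : ρ φ (a • v) = a • ρ φ v := map_smul (ρ φ) (a : A) v
        rw [this]
        exact Submodule.smul_mem _ _ h1
    | one => intro v hv; rw [map_one]; exact hv
    | mul φ ψ _ _ h1 h2 => intro v hv; rw [map_mul]; exact h1 _ (h2 v hv)
  let ρ0 : MulAut (FreeGroup (Fin n)) →* Module.End A0 M0 :=
    { toFun := fun φ => ((ρ φ).restrictScalars A0).restrict (hst φ)
      map_one' := by
        apply LinearMap.ext
        intro v
        apply Subtype.ext
        show ρ 1 (v : M) = v
        rw [map_one]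
        rfl
      map_mul' := by
        intro φ ψ
        apply LinearMap.ext
        intro v
        apply Subtype.ext
        show ρ (φ * ψ) (v : M) = ρ φ (ρ ψ v)
        rw [map_mul]
        rfl }
  let g0 : Fin d → M0 := fun i => ⟨g i, Submodule.subset_span ⟨i, rfl⟩⟩
  have hg0 : Submodule.span A0 (Set.range g0) = ⊤ := by
    apply Submodule.map_injective_of_injective (Submodule.injective_subtype M0)
    rw [Submodule.map_span, ← Set.range_comp, Submodule.map_subtype_top]
    rfl
  have H := noeth hd g0 hg0 ρ0
  constructor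
  intro x a y b h1 h2 h3 h4 h5 h6
  apply LinearMap.ext_on hg
  rintro _ ⟨i, rfl⟩
  have k := congrArg (fun T : Module.End A0 M0 => ((T (g0 i) : M0) : M))
    (H.dj x a y b h1 h2 h3 h4 h5 h6)
  exact k

end general

end Pool.Agent.W7h60.QR
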